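import Mathlib

/-! Pairs on the complex projective plane: log canonical, Fano, orbifold fundamental group. -/

set_option autoImplicit false

open MvPolynomial unitInterval

namespace Pool.Agent.H124Z.Orb

/-- the complex projective plane -/
def P2 : Type := Projectivization ℂ (Fin 3 → ℂ)

/-- the classical topology: the quotient topology from the nonzero vectors of `ℂ³` -/
instance : TopologicalSpace P2 :=
  inferInstanceAs (TopologicalSpace (Quotient (projectivizationSetoid ℂ (Fin 3 → ℂ))))

/-- the point with homogeneous coordinates `v` -/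
noncomputable def P2.mk (v : Fin 3 → ℂ) (hv : v ≠ 0) : P2 := Projectivization.mk ℂ v hv

/-- a vector of homogeneous coordinates of a point -/
noncomputable def P2.rep (p : P2) : Fin 3 → ℂ := Projectivization.rep (K := ℂ) p

/-- the function field `ℂ(s,t)` of the affine plane -/
abbrev K : Type := FractionRing (MvPolynomial (Fin 2) ℂ)

/-- a polynomial in `s, t` as a rational function -/
noncomputable def toK (p : MvPolynomial (Fin 2) ℂ) : K := algebraMap _ K p

/-- the rational 2-form `da ∧ db` -/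
noncomputable def wedge (a b : K) : ExteriorAlgebra K Ω[K⁄ℂ] :=
  ExteriorAlgebra.ι K (KaehlerDifferential.D ℂ K a) *
    ExteriorAlgebra.ι K (KaehlerDifferential.D ℂ K b)

/-- a prime divisor over the affine plane: a discrete valuation `ord` of `ℂ(s,t)` (given on nonzero
elements) with uniformiser `unif`, nonnegative on `ℂ[s,t]`, whose residue field is transcendental
over `ℂ` -/
structure DivVal where
  ord : K → ℤ
  unif : K
  ord_mul : ∀ x y, x ≠ 0 → y ≠ 0 → ord (x * y) = ord x + ord y
  ord_add : ∀ x y, x ≠ 0 → y ≠ 0 → x + y ≠ 0 → min (ord x) (ord y) ≤ ord (x + y)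
  unif_ne : unif ≠ 0
  ord_unif : ord unif = 1
  centre : ∀ p : MvPolynomial (Fin 2) ℂ, p ≠ 0 → 0 ≤ ord (toK p)
  divisorial : ∃ y : K, ∀ q : Polynomial ℂ, q ≠ 0 →
    Polynomial.aeval y q ≠ 0 ∧ ord (Polynomial.aeval y q) = 0

/-- the valuation ring -/
def DivVal.ring (E : DivVal) : Set K := {x | x = 0 ∨ 0 ≤ E.ord x}

/-- the 2-forms regular along `E`: sums of `r da ∧ db` with `r, a, b` in the valuation ring -/
noncomputable def DivVal.forms (E : DivVal) : AddSubgroup (ExteriorAlgebra K Ω[K⁄ℂ]) :=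
  AddSubgroup.closure {w | ∃ r ∈ E.ring, ∃ a ∈ E.ring, ∃ b ∈ E.ring, w = r • wedge a b}

/-- the three standard affine charts of the plane: substitutions of the homogeneous coordinates -/
noncomputable def chart : Fin 3 → Fin 3 → MvPolynomial (Fin 2) ℂ :=
  ![![1, X 0, X 1], ![X 0, 1, X 1], ![X 0, X 1, 1]]

/-- an effective real divisor `∑ b i • V(f i)` on the plane, in prime decomposition, with
coefficients in `(0,1]`; `d i` is the degree of `f i` -/
structure PlaneDiv where
  r : ℕ
  f : Fin r → MvPolynomial (Fin 3) ℂ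
  d : Fin r → ℕ
  b : Fin r → ℝ
  homog : ∀ i, (f i).IsHomogeneous (d i)
  irred : ∀ i, Irreducible (f i)
  distinct : ∀ i j, Associated (f i) (f j) → i = j
  b_pos : ∀ i, 0 < b i
  b_le : ∀ i, b i ≤ 1

namespace PlaneDiv

variable (D : PlaneDiv)

/-- log canonical: in every affine chart and for every prime divisor `E` over it, the discrepancy
`ord_E (ds ∧ dt) - ∑ b i * ord_E (f i)` is at least `-1` -/
def IsLC : Prop :=
  ∀ (j : Fin 3) (E : DivVal), ∃ k : ℤ,
    (∃ w ∈ E.forms, wedge (toK (X 0)) (toK (X 1)) = E.unif ^ k • w) ∧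
    (-1 : ℝ) ≤ k - ∑ i, D.b i * E.ord (toK (aeval (chart j) (D.f i)))

/-- `-(K + D)` is ample: its degree `3 - ∑ b i * d i` is positive -/
def IsFano : Prop := ∑ i, D.b i * D.d i < 3

/-- the complement of the support of the standard approximation (components with `b i ≥ 1/2`) -/
def U : Type := {p : P2 // ∀ i, 1 / 2 ≤ D.b i → eval p.rep (D.f i) ≠ 0}

instance : TopologicalSpace D.U :=
  inferInstanceAs (TopologicalSpace {p : P2 // ∀ i, 1 / 2 ≤ D.b i → eval p.rep (D.f i) ≠ 0})

/-- for `b i < 1`, the largest `m` with `1 - 1/m ≤ b i` -/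
noncomputable def mult (i : Fin D.r) : ℕ := ⌊1 / (1 - D.b i)⌋₊

/-- `g` is a meridian of the `i`-th component: the positively oriented boundary circle of a
holomorphic disc meeting the support only at its centre, a point of the `i`-th component only,
transversally; joined to the base point by a path -/
def IsMeridian (u : D.U) (i : Fin D.r) (g : FundamentalGroup D.U u) : Prop :=
  ∃ (φ : ℂ → Fin 3 → ℂ) (w : D.U) (β : Path u w) (δ : Path w w),
    AnalyticOnNhd ℂ φ (Metric.closedBall 0 1) ∧
    (∀ z ∈ Metric.closedBall (0 : ℂ) 1, φ z ≠ 0) ∧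
    eval (φ 0) (D.f i) = 0 ∧ deriv (fun z => eval (φ z) (D.f i)) 0 ≠ 0 ∧
    (∀ z ∈ Metric.closedBall (0 : ℂ) 1, ∀ j, 1 / 2 ≤ D.b j → (z ≠ 0 ∨ j ≠ i) →
      eval (φ z) (D.f j) ≠ 0) ∧
    (∀ t : I, ∃ h : φ (Complex.exp (2 * Real.pi * Complex.I * (t : ℝ))) ≠ 0,
      (δ t).1 = P2.mk _ h) ∧
    g = FundamentalGroup.fromPath (Path.Homotopic.Quotient.mk (β.trans (δ.trans β.symm)))

/-- the relations `g ^ m i` -/
def rels (u : D.U) : Set (FundamentalGroup D.U u) :=
  {x | ∃ i g, 1 / 2 ≤ D.b i ∧ D.b i < 1 ∧ D.IsMeridian u i g ∧ x = g ^ D.mult i}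

/-- the orbifold fundamental group -/
abbrev pi1orb (u : D.U) : Type :=
  FundamentalGroup D.U u ⧸ Subgroup.normalClosure (D.rels u)

end PlaneDiv

end Pool.Agent.H124Z.Orb
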