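import Mathlib

/-! Monodromy homomorphisms from locally constant cocycles. -/

set_option autoImplicit false

open Topology Filter unitInterval

namespace Pool.Agent.H124Z.Orb

/-- charts `V i` with set-theoretic trivialisations `τ i` whose transitions are locally constant -/
structure Cocycle (X : Type) [TopologicalSpace X] (G : Type) [Group G] (ι : Type) where
  V : ι → Set X
  isOpen : ∀ i, IsOpen (V i)
  idx : X → ι
  mem : ∀ x, x ∈ V (idx x)
  τ : ι → X → G
  lc : ∀ i j, ∀ x, x ∈ V i → x ∈ V j → ∀ᶠ y in 𝓝 x, τ j y * (τ i y)⁻¹ = τ j x * (τ i x)⁻¹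

variable {X : Type} [TopologicalSpace X] {G : Type} [Group G] {ι : Type}

namespace Cocycle

variable (C : Cocycle X G ι)

/-- `h` is a flat section along `f` -/
def Flat {Y : Type} [TopologicalSpace Y] (f : Y → X) (h : Y → G) : Prop :=
  ∀ i y, f y ∈ C.V i → ∀ᶠ z in 𝓝 y, C.τ i (f z) * h z = C.τ i (f y) * h y

variable {C}

theorem Flat.comp {Y Z : Type} [TopologicalSpace Y] [TopologicalSpace Z] {f : Y → X} {h : Y → G}
    (H : C.Flat f h) {g : Z → Y} (hg : Continuous g) : C.Flat (f ∘ g) (h ∘ g) :=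
  fun i z hz => hg.continuousAt.eventually (H i (g z) hz)

theorem const_of_ev {Y α : Type} [TopologicalSpace Y] [PreconnectedSpace Y] {k : Y → α}
    (hk : ∀ y, ∀ᶠ z in 𝓝 y, k z = k y) (a b : Y) : k a = k b :=
  ((IsLocallyConstant.iff_eventually_eq k).2 hk).apply_eq_of_preconnectedSpace a b

theorem Flat.unique {Y : Type} [TopologicalSpace Y] [PreconnectedSpace Y] {f : Y → X}
    {h h' : Y → G} (H : C.Flat f h) (H' : C.Flat f h') (a b : Y) :
    (h a)⁻¹ * h' a = (h b)⁻¹ * h' b := by
  refine const_of_ev (k := fun y => (h y)⁻¹ * h' y) (fun y => ?_) a b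
  filter_upwards [H _ y (C.mem _), H' _ y (C.mem _)] with z h1 h2
  calc (h z)⁻¹ * h' z = (C.τ (C.idx (f y)) (f z) * h z)⁻¹ * (C.τ (C.idx (f y)) (f z) * h' z) := by group
    _ = _ := by rw [h1, h2]; group

theorem Flat.of_one_chart {Y : Type} [TopologicalSpace Y] {f : Y → X} (hf : Continuous f)
    {h : Y → G} (H : ∀ y, ∃ i, f y ∈ C.V i ∧ ∀ᶠ z in 𝓝 y, C.τ i (f z) * h z = C.τ i (f y) * h y) :
    C.Flat f h := by
  intro j y hj
  obtain ⟨i, hi, H1⟩ := H y
  filter_upwards [H1, hf.continuousAt.eventually (C.lc i j (f y) hi hj)] with z h1 h2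
  calc C.τ j (f z) * h z = (C.τ j (f z) * (C.τ i (f z))⁻¹) * (C.τ i (f z) * h z) := by group
    _ = _ := by rw [h1, h2]; group

theorem Flat.const {Y : Type} [TopologicalSpace Y] (x : X) (g : G) :
    C.Flat (fun _ : Y => x) (fun _ => g) := fun _ _ _ => Eventually.of_forall fun _ => rfl

variable (C)

theorem exists_flat {Y : Type} [TopologicalSpace Y] [SimplyConnectedSpace Y]
    [LocallyPathConnectedSpace Y] (f : Y → X) (hf : Continuous f) : ∃ h, C.Flat f h := by
  let _ : TopologicalSpace G := ⊥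
  have : DiscreteTopology G := ⟨rfl⟩
  let Z : FiberBundleCore ι X G :=
    { baseSet := C.V
      isOpen_baseSet := C.isOpen
      indexAt := C.idx
      mem_baseSet_at := C.mem
      coordChange := fun i j x g => C.τ j x * (C.τ i x)⁻¹ * g
      coordChange_self := by intro i x _ v; group
      continuousOn_coordChange := by
        intro i j p hp
        apply ContinuousAt.continuousWithinAt
        have h1 : ∀ᶠ q : X × G in 𝓝 p, C.τ j q.1 * (C.τ i q.1)⁻¹ = C.τ j p.1 * (C.τ i p.1)⁻¹ :=
          continuous_fst.continuousAt.eventually (C.lc i j p.1 hp.1.1 hp.1.2)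
        have h2 : ∀ᶠ q : X × G in 𝓝 p, q.2 = p.2 :=
          continuous_snd.continuousAt.eventually (by simp [nhds_discrete] : ∀ᶠ g in 𝓝 p.2, g = p.2)
        refine (continuousAt_const (y := C.τ j p.1 * (C.τ i p.1)⁻¹ * p.2)).congr ?_
        filter_upwards [h1, h2] with q e1 e2
        rw [e1, e2]
      coordChange_comp := by intro i j k x _ v; group }
  have cov : IsCoveringMap (Bundle.TotalSpace.proj : Z.TotalSpace → X) :=
    FiberBundle.isCoveringMap (F := G) (E := Z.Fiber)
  obtain ⟨y0⟩ : Nonempty Y := inferInstance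
  obtain ⟨F, ⟨-, hF⟩, -⟩ := cov.existsUnique_continuousMap_lifts ⟨f, hf⟩ y0 ⟨f y0, (1 : G)⟩ rfl
  have hF1 : ∀ y, (F y).proj = f y := fun y => congrFun hF y
  refine ⟨fun y => (C.τ (C.idx (f y)) (f y))⁻¹ * (show G from (F y).2), fun i y hy => ?_⟩
  have hs : F y ∈ (Z.localTriv i).source := by
    rw [Z.mem_localTriv_source, hF1]; exact hy
  have hc : ContinuousAt (fun z => ((Z.localTriv i) (F z)).2) y :=
    continuous_snd.continuousAt.comp
      (((Z.localTriv i).continuousOn.continuousAt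
        ((Z.localTriv i).open_source.mem_nhds hs)).comp F.continuous.continuousAt)
  have he : ∀ᶠ z in 𝓝 y, ((Z.localTriv i) (F z)).2 = ((Z.localTriv i) (F y)).2 :=
    hc.eventually (by simp [nhds_discrete] :
      ∀ᶠ g in 𝓝 ((Z.localTriv i) (F y)).2, g = ((Z.localTriv i) (F y)).2)
  filter_upwards [he] with z hz
  simp only [FiberBundleCore.localTriv_apply, Z, hF1] at hz
  rw [← mul_assoc, ← mul_assoc]
  exact hz

theorem exists_flat_sq (f : I × I → X) (hf : Continuous f) : ∃ h, C.Flat f h := by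
  let π : ℝ × ℝ → I × I := fun p => (Set.projIcc 0 1 zero_le_one p.1, Set.projIcc 0 1 zero_le_one p.2)
  have hπ : Continuous π :=
    (continuous_projIcc.comp continuous_fst).prodMk (continuous_projIcc.comp continuous_snd)
  obtain ⟨h, H⟩ := C.exists_flat (f ∘ π) (hf.comp hπ)
  let e : I × I → ℝ × ℝ := fun p => (p.1.1, p.2.1)
  have he : Continuous e := by fun_prop
  have := H.comp he
  have e1 : (f ∘ π) ∘ e = f := by
    funext p; simp [π, e]
  rw [e1] at this
  exact ⟨_, this⟩

theorem exists_flat_I (f : I → X) (hf : Continuous f) : ∃ h, C.Flat f h := by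
  obtain ⟨h, H⟩ := C.exists_flat_sq (f ∘ Prod.fst) (hf.comp continuous_fst)
  exact ⟨_, H.comp (g := fun t : I => (t, (0 : I))) (by fun_prop)⟩

/-- holonomy of a path -/
noncomputable def hol {x y : X} (γ : Path x y) : G :=
  (C.exists_flat_I γ γ.continuous).choose 1 * ((C.exists_flat_I γ γ.continuous).choose 0)⁻¹

variable {C}

theorem hol_eq {x y : X} {γ : Path x y} {h : I → G} (H : C.Flat γ h) :
    C.hol γ = h 1 * (h 0)⁻¹ := by
  have := (C.exists_flat_I γ γ.continuous).choose_spec.unique H 0 1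
  unfold hol
  set k := (C.exists_flat_I γ γ.continuous).choose
  calc k 1 * (k 0)⁻¹ = k 1 * ((k 0)⁻¹ * h 0) * (h 0)⁻¹ := by group
    _ = _ := by rw [this]; group

theorem hol_trans {x y z : X} (γ : Path x y) (δ : Path y z) :
    C.hol (γ.trans δ) = C.hol δ * C.hol γ := by
  obtain ⟨h, H⟩ := C.exists_flat_I (γ.trans δ) (γ.trans δ).continuous
  let a : I → I := fun t => ⟨t / 2, by constructor <;> linarith [t.2.1, t.2.2]⟩
  let b : I → I := fun t => ⟨(t + 1) / 2, by constructor <;> linarith [t.2.1, t.2.2]⟩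
  have ha : Continuous a := by fun_prop
  have hb : Continuous b := by fun_prop
  have e1 : (γ.trans δ) ∘ a = γ := by
    funext t
    have : ((a t : I) : ℝ) ≤ 1 / 2 := by simp only [a]; linarith [t.2.2]
    simp only [Function.comp, Path.trans_apply, dif_pos this]
    congr 1; ext; simp only [a]; ring
  have e2 : (γ.trans δ) ∘ b = δ := by
    funext t
    simp only [Function.comp, Path.trans_apply]
    split_ifs with hh
    · have h0 : t = 0 := by
        ext; simp only [b] at hh; have := t.2.1; simp only [Set.Icc.coe_zero]; linarith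
      subst h0
      have : (⟨2 * ((b 0 : I) : ℝ), (mul_pos_mem_iff zero_lt_two).2 ⟨(b 0).2.1, hh⟩⟩ : I) = 1 := by
        ext; simp [b]
      rw [this]; simp
    · congr 1; ext; simp only [b]; ring
  have H1 := H.comp ha
  have H2 := H.comp hb
  rw [e1] at H1; rw [e2] at H2
  rw [hol_eq H, hol_eq H1, hol_eq H2]
  have a0 : a 0 = 0 := by ext; simp [a]
  have b1 : b 1 = 1 := by ext; simp [b]
  have ab : a 1 = b 0 := by ext; simp [a, b]
  simp only [Function.comp, a0, b1, ab]; group

theorem hol_homotopic {x y : X} {γ δ : Path x y} (hh : γ.Homotopic δ) : C.hol γ = C.hol δ := by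
  obtain ⟨F⟩ := hh
  obtain ⟨h, H⟩ := C.exists_flat_sq F F.continuous
  have H0 := H.comp (g := fun t : I => ((0 : I), t)) (by fun_prop)
  have H1 := H.comp (g := fun t : I => ((1 : I), t)) (by fun_prop)
  have K0 := H.comp (g := fun t : I => (t, (0 : I))) (by fun_prop)
  have K1 := H.comp (g := fun t : I => (t, (1 : I))) (by fun_prop)
  have e0 : (F ∘ fun t : I => ((0 : I), t)) = γ := by funext t; simp
  have e1 : (F ∘ fun t : I => ((1 : I), t)) = δ := by funext t; simp
  have f0 : (F ∘ fun t : I => (t, (0 : I))) = fun _ => x := by funext t; simp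
  have f1 : (F ∘ fun t : I => (t, (1 : I))) = fun _ => y := by funext t; simp
  rw [e0] at H0; rw [e1] at H1; rw [f0] at K0; rw [f1] at K1
  have u0 := (Flat.const (C := C) (Y := I) x 1).unique K0 0 1
  have u1 := (Flat.const (C := C) (Y := I) y 1).unique K1 0 1
  simp only [inv_one, one_mul, Function.comp] at u0 u1
  rw [hol_eq H0, hol_eq H1]
  simp only [Function.comp, u0, u1]

theorem hol_refl (x : X) : C.hol (Path.refl x) = 1 := by
  have : C.Flat (Path.refl x) (fun _ => 1) := Flat.const x 1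
  rw [hol_eq this]; simp

theorem hol_symm {x y : X} (γ : Path x y) : C.hol γ.symm = (C.hol γ)⁻¹ := by
  have h1 : C.hol (γ.trans γ.symm) = 1 := by
    rw [← hol_refl (C := C) x]
    exact hol_homotopic ⟨(Path.Homotopy.reflTransSymm γ).symm⟩
  rw [hol_trans] at h1
  exact eq_inv_of_mul_eq_one_left h1

variable (C)

/-- the monodromy homomorphism -/
noncomputable def mono (x : X) : FundamentalGroup X x →* G :=
  MonoidHom.mk' (fun p => Quotient.lift (fun γ : Path x x => C.hol γ)
      (fun _ _ h => hol_homotopic h) (FundamentalGroup.toPath p)) (by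
    intro p q
    induction p using Path.Homotopic.Quotient.ind with | _ γ => ?_
    induction q using Path.Homotopic.Quotient.ind with | _ δ => ?_
    exact hol_trans δ γ)

theorem mono_mk (x : X) (γ : Path x x) :
    C.mono x (FundamentalGroup.fromPath (Path.Homotopic.Quotient.mk γ)) = C.hol γ := rfl

variable {C}

/-- a reduction of the structure group to `S` over a set `W` -/
def Red (C : Cocycle X G ι) (W : Set X) (S : Subgroup G) (sg : X → G) : Prop :=
  ∀ x ∈ W, ∃ i, x ∈ C.V i ∧ ∀ᶠ y in 𝓝 x, y ∈ W → (C.τ i x * sg x)⁻¹ * (C.τ i y * sg y) ∈ S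

theorem Red.flat {W : Set X} {S : Subgroup G} {sg : X → G} (R : C.Red W S sg)
    {f : I → X} (hf : Continuous f) (hW : ∀ t, f t ∈ W) {h : I → G} (H : C.Flat f h) :
    ((sg (f 1))⁻¹ * h 1) * ((sg (f 0))⁻¹ * h 0)⁻¹ ∈ S := by
  have key : ∀ a b : I, (((h a)⁻¹ * sg (f a) : G) : G ⧸ S) = (((h b)⁻¹ * sg (f b) : G) : G ⧸ S) := by
    refine const_of_ev (k := fun a => (((h a)⁻¹ * sg (f a) : G) : G ⧸ S)) fun y => ?_
    obtain ⟨i, hi, R1⟩ := R _ (hW y)
    filter_upwards [H i y hi, hf.continuousAt.eventually R1] with z h1 h2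
    symm
    rw [QuotientGroup.eq]
    have : ((h y)⁻¹ * sg (f y))⁻¹ * ((h z)⁻¹ * sg (f z))
        = (C.τ i (f y) * sg (f y))⁻¹ * ((C.τ i (f y) * h y) * (C.τ i (f z) * h z)⁻¹)
          * (C.τ i (f z) * sg (f z)) := by group
    rw [this, h1]
    simpa using h2 (hW z)
  have := QuotientGroup.eq.1 (key 1 0)
  convert this using 1
  group

/-- free homotopy of loops into a region with a reduction to a group of exponent `m` -/
theorem hol_pow_eq_one {W : Set X} {S : Subgroup G} {sg : X → G} (R : C.Red W S sg) {m : ℕ}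
    (hS : ∀ s ∈ S, s ^ m = 1) {x : X} (δ : Path x x) (F : I × I → X) (hF : Continuous F)
    (h0 : ∀ t, F (0, t) = δ t) (hl : ∀ s, F (s, 0) = F (s, 1)) (h1 : ∀ t, F (1, t) ∈ W) :
    C.hol δ ^ m = 1 := by
  obtain ⟨h, H⟩ := C.exists_flat_sq F hF
  have H0 := H.comp (g := fun t : I => ((0 : I), t)) (by fun_prop)
  have H1 := H.comp (g := fun t : I => ((1 : I), t)) (by fun_prop)
  have K0 := H.comp (g := fun t : I => (t, (0 : I))) (by fun_prop)
  have K1 := H.comp (g := fun t : I => (t, (1 : I))) (by fun_prop)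
  have e0 : (F ∘ fun t : I => ((0 : I), t)) = δ := by funext t; simp [h0]
  have f1 : (F ∘ fun t : I => (t, (1 : I))) = (F ∘ fun t : I => (t, (0 : I))) := by
    funext t; simp [hl]
  rw [e0] at H0; rw [f1] at K1
  have u := K0.unique K1 0 1
  simp only [Function.comp] at u
  have r := R.flat (hF.comp (by fun_prop)) h1 H1
  simp only [Function.comp] at r
  rw [← hl 1] at r
  have r2 := hS _ r
  rw [hol_eq H0]
  simp only [Function.comp]
  have e : h (0, 1) * (h (0, 0))⁻¹ = (h (0, 0) * (h (1, 0))⁻¹ * sg (F (1, 0))) *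
      ((sg (F (1, 0)))⁻¹ * h (1, 1) * ((sg (F (1, 0)))⁻¹ * h (1, 0))⁻¹) *
      (h (0, 0) * (h (1, 0))⁻¹ * sg (F (1, 0)))⁻¹ := by
    calc h (0, 1) * (h (0, 0))⁻¹ = h (0, 0) * ((h (0, 0))⁻¹ * h (0, 1)) * (h (0, 0))⁻¹ := by group
      _ = _ := by rw [u]; group
  rw [e, conj_pow, r2]; group

end Cocycle

end Pool.Agent.H124Z.Orb
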