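import Mathlib

set_option autoImplicit false

namespace Pool.Agent.H124Z.Orb

open Matrix

variable {R : Type} [CommRing R]

/-- unitriangular matrices -/
def uni (p r q : R) : Matrix (Fin 3) (Fin 3) R := !![1, p, q; 0, 1, r; 0, 0, 1]

theorem uni_mul (p r q p' r' q' : R) :
    uni p r q * uni p' r' q' = uni (p + p') (r + r') (q + q' + p * r') := by
  ext i j
  fin_cases i <;> fin_cases j <;> simp [uni, Matrix.mul_apply, Fin.sum_univ_three] <;> ring

theorem uni_zero : uni (0 : R) 0 0 = 1 := by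
  ext i j
  fin_cases i <;> fin_cases j <;> simp [uni]

theorem uni_pow (p r q : R) (n : ℕ) : ∃ q', uni p r q ^ n = uni (n * p) (n * r) q' := by
  induction n with
  | zero => exact ⟨0, by simp [uni_zero]⟩
  | succ n ih =>
    obtain ⟨q', h⟩ := ih
    refine ⟨q' + q + n * p * r, ?_⟩
    rw [pow_succ, h, uni_mul]; congr 1 <;> push_cast <;> ring

theorem uni_pow_c (q : R) (n : ℕ) : uni 0 0 q ^ n = uni 0 0 (n * q) := by
  induction n with
  | zero => simp [uni_zero]
  | succ n ih => rw [pow_succ, ih, uni_mul]; congr 1 <;> push_cast <;> ring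

theorem exists_group (N : ℕ) : ∃ (m : ℕ) (G : Type) (_ : Group G) (a b c : G), 2 ≤ m ∧
    Commute c a ∧ Commute c b ∧ a ^ 3 = 1 ∧ b ^ 3 = 1 ∧ c ^ m = 1 ∧ (c * a * b⁻¹) ^ 3 = 1 ∧
    ∀ i j : ℕ, 0 < i → i ≤ N → 0 < j → j ≤ N → ¬ Commute ((a⁻¹ * b⁻¹) ^ i) ((b⁻¹ * a⁻¹) ^ j) := by
  set k : ℕ := 3 * N + 1 with hk
  set m : ℕ := k ^ 2 + k + 1 with hm
  let w : ZMod m := k
  have hw : w ^ 2 + w + 1 = 0 := by
    have : ((k ^ 2 + k + 1 : ℕ) : ZMod m) = 0 := by rw [← hm]; exact ZMod.natCast_self m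
    push_cast at this
    exact this
  let A : Matrix (Fin 3) (Fin 3) (ZMod m) := !![1, 0, 0; 0, w, 0; 0, 0, 1]
  let B : Matrix (Fin 3) (Fin 3) (ZMod m) := !![1, 3, -(2 + w); 0, w, 1; 0, 0, 1]
  have hA : A * A * A = 1 := by
    ext i j
    fin_cases i <;> fin_cases j <;> simp [A, Matrix.mul_apply, Fin.sum_univ_three]
    linear_combination (w - 1) * hw
  have hB : B * B * B = 1 := by
    ext i j
    fin_cases i <;> fin_cases j <;> simp [B, Matrix.mul_apply, Fin.sum_univ_three]
    · linear_combination 3 * hw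
    · ring
    · linear_combination (w - 1) * hw
    · linear_combination hw
  let a : (Matrix (Fin 3) (Fin 3) (ZMod m))ˣ := ⟨A, A * A, by rw [← mul_assoc, hA], hA⟩
  let b' : (Matrix (Fin 3) (Fin 3) (ZMod m))ˣ := ⟨B, B * B, by rw [← mul_assoc, hB], hB⟩
  let c : (Matrix (Fin 3) (Fin 3) (ZMod m))ˣ := ⟨uni 0 0 (1 - w), uni 0 0 (w - 1),
    by rw [uni_mul, ← uni_zero]; congr 1 <;> ring, by rw [uni_mul, ← uni_zero]; congr 1 <;> ring⟩
  refine ⟨m, _, inferInstance, a, b'⁻¹, c, by nlinarith, ?_, ?_, ?_, ?_, ?_, ?_, ?_⟩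
  · apply Units.ext
    ext i j
    fin_cases i <;> fin_cases j <;> simp [a, c, A, uni, Matrix.mul_apply, Fin.sum_univ_three]
  · apply Commute.inv_right
    apply Units.ext
    ext i j
    fin_cases i <;> fin_cases j <;> simp [b', c, B, uni, Matrix.mul_apply, Fin.sum_univ_three]
    ring
  · apply Units.ext
    simp only [Units.val_mul, Units.val_one, a, pow_three, ← mul_assoc, hA]
  · rw [inv_pow, inv_eq_one]
    apply Units.ext
    simp only [Units.val_mul, Units.val_one, b', pow_three, ← mul_assoc, hB]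
  · apply Units.ext
    simp only [Units.val_pow_eq_pow_val, Units.val_one, c, uni_pow_c]
    rw [ZMod.natCast_self, zero_mul, uni_zero]
  · rw [inv_inv]
    apply Units.ext
    have e : (uni 0 0 (1 - w) * A * B) = !![1, 3, -(1 + 2 * w); 0, w ^ 2, w; 0, 0, 1] := by
      ext i j
      fin_cases i <;> fin_cases j <;> simp [A, B, uni, Matrix.mul_apply, Fin.sum_univ_three] <;> ring
    simp only [Units.val_one, Units.val_mul, a, b', c, e, pow_three]
    ext i j
    fin_cases i <;> fin_cases j <;> simp [Matrix.mul_apply, Fin.sum_univ_three]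
    · linear_combination (3 * w ^ 2 - 3 * w + 3) * hw
    · linear_combination (3 * w - 3) * hw
    · linear_combination (w ^ 4 - w ^ 3 + w - 1) * hw
    · linear_combination (w ^ 3 - w ^ 2 + w) * hw
  · intro i j hi hiN hj hjN hc
    rw [inv_inv] at hc
    have hc' := congrArg Units.val hc.eq
    have eX : A * A * B = uni 3 (w ^ 2) (-(2 + w)) := by
      ext i j
      fin_cases i <;> fin_cases j <;> simp [A, B, uni, Matrix.mul_apply, Fin.sum_univ_three]
      · linear_combination (w - 1) * hw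
      · ring
    have eY : B * (A * A) = uni (3 * w ^ 2) 1 (-(2 + w)) := by
      ext i j
      fin_cases i <;> fin_cases j <;> simp [A, B, uni, Matrix.mul_apply, Fin.sum_univ_three]
      · ring
      · linear_combination (w - 1) * hw
    have ia : ((a⁻¹ : (Matrix (Fin 3) (Fin 3) (ZMod m))ˣ) : Matrix (Fin 3) (Fin 3) (ZMod m))
      = A * A := rfl
    simp only [Units.val_pow_eq_pow_val, Units.val_mul, ia, b', eX, eY] at hc'
    obtain ⟨q1, h1⟩ := uni_pow 3 (w ^ 2) (-(2 + w)) i
    obtain ⟨q2, h2⟩ := uni_pow (3 * w ^ 2) 1 (-(2 + w)) j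
    rw [h1, h2, uni_mul, uni_mul] at hc'
    have h3 := congrFun (congrFun hc' 0) 2
    simp [uni] at h3
    have h4 : ((9 * i * j : ℕ) : ZMod m) = 0 := by
      push_cast
      linear_combination (1 - w ^ 2) * h3 +
        ((i : ZMod m) * j * (6 - 6 * w + 3 * w ^ 2 + 3 * w ^ 3 - 3 * w ^ 4)) * hw
    rw [ZMod.natCast_eq_zero_iff] at h4
    have h5 := Nat.le_of_dvd (by positivity) h4
    have : i * j ≤ N * N := Nat.mul_le_mul hiN hjN
    nlinarith

end Pool.Agent.H124Z.Orb
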