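import Pool.Agent.H124Z.Orb.Defs

set_option autoImplicit false

open MvPolynomial

namespace Pool.Agent.H124Z.Orb

theorem wedge_self (a : K) : wedge a a = 0 := ExteriorAlgebra.ι_sq_zero _

theorem wedge_swap (a b : K) : wedge a b = - wedge b a :=
  eq_neg_of_add_eq_zero_left (ExteriorAlgebra.ι_add_mul_swap _ _)

theorem wedge_sub_right (a b c : K) : wedge a (b - c) = wedge a b - wedge a c := by
  simp [wedge, mul_sub]

theorem wedge_one_right (a : K) : wedge a 1 = 0 := by simp [wedge]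

theorem toK_ne {p : MvPolynomial (Fin 2) ℂ} (hp : p ≠ 0) : toK p ≠ 0 := by
  unfold toK
  exact (map_ne_zero_iff _ (IsFractionRing.injective _ K)).2 hp

namespace DivVal

variable (E : DivVal)

theorem ord_one : E.ord 1 = 0 := by
  have := E.ord_mul 1 1 one_ne_zero one_ne_zero
  simp at this; exact this

theorem ord_inv {x : K} (hx : x ≠ 0) : E.ord x⁻¹ = - E.ord x := by
  have := E.ord_mul x x⁻¹ hx (inv_ne_zero hx)
  rw [mul_inv_cancel₀ hx, ord_one] at this; omega

theorem ord_neg {x : K} (hx : x ≠ 0) : E.ord (-x) = E.ord x := by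
  have h1 := E.ord_mul (-1) (-1) (by simp) (by simp)
  have h2 := E.ord_mul (-1) x (by simp) hx
  simp only [mul_neg, mul_one, neg_neg, ord_one, neg_mul, one_mul] at h1 h2
  omega

theorem ord_zpow (k : ℤ) : E.ord (E.unif ^ k) = k := by
  have hu := E.unif_ne
  induction k using Int.induction_on with
  | zero => simp [ord_one]
  | succ n ih =>
    rw [zpow_add_one₀ hu, E.ord_mul _ _ (zpow_ne_zero _ hu) hu, ih, E.ord_unif]
  | pred n ih =>
    rw [zpow_sub_one₀ hu, E.ord_mul _ _ (zpow_ne_zero _ hu) (inv_ne_zero hu), ih, E.ord_inv hu,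
      E.ord_unif]; ring

theorem mul_mem {x y : K} (hx : x ∈ E.ring) (hy : y ∈ E.ring) : x * y ∈ E.ring := by
  by_cases h1 : x = 0
  · left; simp [h1]
  by_cases h2 : y = 0
  · left; simp [h2]
  right
  rw [E.ord_mul _ _ h1 h2]
  have := hx.resolve_left h1
  have := hy.resolve_left h2
  omega

theorem int_mem (k : ℤ) : (k : K) ∈ E.ring := by
  by_cases h : (k : MvPolynomial (Fin 2) ℂ) = 0
  · left
    have : toK (k : MvPolynomial (Fin 2) ℂ) = k := by simp [toK]
    rw [← this, h]; simp [toK]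
  · right
    have := E.centre _ h
    simpa [toK] using this

theorem gen_mem {r a b : K} (hr : r ∈ E.ring) (ha : a ∈ E.ring) (hb : b ∈ E.ring) :
    r • wedge a b ∈ E.forms :=
  AddSubgroup.subset_closure ⟨r, hr, a, ha, b, hb, rfl⟩

theorem D_zpow (k : ℤ) : KaehlerDifferential.D ℂ K (E.unif ^ k) =
    ((k : K) * E.unif ^ (k - 1)) • KaehlerDifferential.D ℂ K E.unif := by
  rw [Derivation.leibniz_zpow, mul_smul, Int.cast_smul_eq_zsmul]

/-- logarithmic forms have at most simple poles -/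
theorem log_form {f g : K} (hf : f ≠ 0) (hg : g ≠ 0) :
    ∃ w ∈ E.forms, wedge f g = E.unif ^ (E.ord f + E.ord g - 1) • w := by
  have hu := E.unif_ne
  set k := E.ord f
  set l := E.ord g
  set u := f * E.unif ^ (-k) with hu1
  set v := g * E.unif ^ (-l) with hv1
  have hu0 : u ∈ E.ring := by
    right; rw [hu1, E.ord_mul _ _ hf (zpow_ne_zero _ hu), ord_zpow]; omega
  have hv0 : v ∈ E.ring := by
    right; rw [hv1, E.ord_mul _ _ hg (zpow_ne_zero _ hu), ord_zpow]; omega
  have hπ : E.unif ∈ E.ring := by right; rw [E.ord_unif]; omega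
  have ef : f = E.unif ^ k * u := by
    rw [hu1, zpow_neg]; field_simp
  have eg : g = E.unif ^ l * v := by
    rw [hv1, zpow_neg]; field_simp
  refine ⟨E.unif • wedge u v + ((l : K) * v) • wedge u E.unif + ((k : K) * u) • wedge E.unif v,
    add_mem (add_mem (E.gen_mem hπ hu0 hv0) (E.gen_mem (E.mul_mem (E.int_mem l) hv0) hu0 hπ))
      (E.gen_mem (E.mul_mem (E.int_mem k) hu0) hπ hv0), ?_⟩
  have h0 := wedge_self E.unif
  rw [ef, eg]
  simp only [wedge, Derivation.leibniz, D_zpow, map_add, map_smul, add_mul, mul_add, smul_add,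
    smul_mul_assoc, mul_smul_comm, smul_smul] at h0 ⊢
  rw [h0, smul_zero, add_zero]
  have e1 : E.unif ^ (k + l - 1) = E.unif ^ k * E.unif ^ l * E.unif⁻¹ := by
    rw [zpow_sub_one₀ hu, zpow_add₀ hu]
  rw [e1, zpow_sub_one₀ hu, zpow_sub_one₀ hu]
  have c1 : E.unif ^ k * E.unif ^ l * E.unif⁻¹ * E.unif = E.unif ^ l * E.unif ^ k := by
    field_simp
  have c2 : E.unif ^ k * E.unif ^ l * E.unif⁻¹ * ((l : K) * v)
      = v * ((l : K) * (E.unif ^ l * E.unif⁻¹)) * E.unif ^ k := by ring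
  have c3 : E.unif ^ k * E.unif ^ l * E.unif⁻¹ * ((k : K) * u)
      = E.unif ^ l * (u * ((k : K) * (E.unif ^ k * E.unif⁻¹))) := by ring
  rw [c1, c2, c3]
  abel

theorem log_form_neg {f g : K} (hf : f ≠ 0) (hg : g ≠ 0) :
    ∃ w ∈ E.forms, - wedge f g = E.unif ^ (E.ord f + E.ord g - 1) • w := by
  obtain ⟨w, hw, e⟩ := E.log_form hf hg
  exact ⟨-w, neg_mem hw, by rw [e, smul_neg]⟩

theorem ord_sub {x y : K} (hx : x ≠ 0) (hy : y ≠ 0) (h : x - y ≠ 0) :
    min (E.ord x) (E.ord y) ≤ E.ord (x - y) := by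
  have := E.ord_add x (-y) hx (neg_ne_zero.2 hy) (by rwa [← sub_eq_add_neg])
  rwa [E.ord_neg hy, ← sub_eq_add_neg] at this

/-- three concurrent lines with coefficient `2/3` -/
theorem lc_three {s t : K} (hs : s ≠ 0) (ht : t ≠ 0) (hst : s - t ≠ 0) :
    ∃ k : ℤ, (∃ w ∈ E.forms, wedge s t = E.unif ^ k • w) ∧
      2 * (E.ord s + E.ord t + E.ord (s - t)) ≤ 3 * (k + 1) := by
  have h1 := E.ord_sub hs ht hst
  have h2 := E.ord_add (s - t) t hst ht (by simpa using hs)
  have h3 := E.ord_sub hs hst (by simpa using ht)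
  simp only [sub_add_cancel, sub_sub_cancel] at h2 h3
  by_cases hc : E.ord (s - t) ≤ max (E.ord s) (E.ord t)
  · exact ⟨_, E.log_form hs ht, by omega⟩
  · refine ⟨_, ?_, (by omega : 2 * (E.ord s + E.ord t + E.ord (s - t)) ≤
      3 * ((E.ord s + E.ord (s - t) - 1) + 1))⟩
    have : wedge s t = - wedge s (s - t) := by rw [wedge_sub_right, wedge_self]; simp
    rw [this]
    exact E.log_form_neg hs hst

/-- one line crossed by two parallel lines -/
theorem lc_two {s t : K} (hs : s ≠ 0) (ht : t ≠ 0) (h1t : 1 - t ≠ 0) (h0 : 0 ≤ E.ord t)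
    (h0' : 0 ≤ E.ord (1 - t)) :
    ∃ k : ℤ, (∃ w ∈ E.forms, wedge s t = E.unif ^ k • w) ∧
      E.ord s + E.ord t + E.ord (1 - t) ≤ k + 1 := by
  have h2 := E.ord_add (1 - t) t h1t ht (by simp)
  simp only [sub_add_cancel, ord_one] at h2
  by_cases hc : E.ord (1 - t) ≤ 0
  · exact ⟨_, E.log_form hs ht, by omega⟩
  · refine ⟨_, ?_, (by omega : E.ord s + E.ord t + E.ord (1 - t) ≤
      (E.ord s + E.ord (1 - t) - 1) + 1)⟩
    have : wedge s t = - wedge s (1 - t) := by rw [wedge_sub_right, wedge_one_right]; simp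
    rw [this]
    exact E.log_form_neg hs h1t

end DivVal

end Pool.Agent.H124Z.Orb
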