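import Pool.Agent.H124Z.Orb.Top

set_option autoImplicit false

open Topology Filter unitInterval

namespace Pool.Agent.H124Z.Orb

/-- the unit circle -/
noncomputable def circ (t : I) : ℂ := Complex.exp (2 * Real.pi * Complex.I * (t : ℝ))

theorem circ_norm (t : I) : ‖circ t‖ = 1 := by
  have : circ t = Complex.exp (((2 * Real.pi * t : ℝ) : ℂ) * Complex.I) := by
    unfold circ; congr 1; push_cast; ring
  rw [this, Complex.norm_exp_ofReal_mul_I]

theorem circ_01 : circ 0 = circ 1 := by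
  simp [circ, Complex.exp_two_pi_mul_I]

/-- shrinking circles -/
noncomputable def rad (r : ℝ) (p : I × I) : ℂ := ((1 - p.1 * (1 - r) : ℝ) : ℂ) * circ p.2

theorem rad_cont (r : ℝ) : Continuous (rad r) := by
  unfold rad circ; fun_prop

theorem rad_norm {r : ℝ} (h0 : 0 ≤ r) (p : I × I) (h1 : r ≤ 1) : ‖rad r p‖ = 1 - p.1 * (1 - r) := by
  rw [rad, norm_mul, circ_norm, mul_one, Complex.norm_real, Real.norm_of_nonneg]
  nlinarith [p.1.2.1, p.1.2.2]

theorem rad_mem {r : ℝ} (h0 : 0 ≤ r) (h1 : r ≤ 1) (p : I × I) :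
    rad r p ∈ Metric.closedBall (0 : ℂ) 1 := by
  rw [mem_closedBall_zero_iff, rad_norm h0 p h1]
  nlinarith [p.1.2.1, p.1.2.2]

theorem rad_ne {r : ℝ} (h0 : 0 < r) (h1 : r ≤ 1) (p : I × I) : rad r p ≠ 0 := by
  rw [← norm_pos_iff, rad_norm h0.le p h1]
  nlinarith [p.1.2.1, p.1.2.2]

theorem rad_zero (r : ℝ) (t : I) : rad r (0, t) = circ t := by simp [rad]

theorem rad_one_norm {r : ℝ} (h0 : 0 ≤ r) (h1 : r ≤ 1) (t : I) : ‖rad r (1, t)‖ = r := by
  rw [rad_norm h0 _ h1]; simp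

theorem rad_one0 (t : I) : rad 0 (1, t) = 0 := by simp [rad]

theorem rad_per (r : ℝ) (s : I) : rad r (s, 0) = rad r (s, 1) := by simp only [rad, circ_01]

theorem small {f : ℂ → ℂ} (hf : ContinuousWithinAt f (Metric.closedBall 0 1) 0) {P : ℂ → Prop}
    (hP : ∀ᶠ y in 𝓝 (f 0), P y) : ∃ r : ℝ, 0 < r ∧ r ≤ 1 ∧ ∀ t : I, P (f (rad r (1, t))) := by
  have := hf.eventually hP
  rw [eventually_nhdsWithin_iff, Metric.eventually_nhds_iff] at this
  obtain ⟨ε, hε, h⟩ := this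
  refine ⟨min (ε / 2) 1, by positivity, min_le_right _ _, fun t => h ?_ ?_⟩
  · rw [dist_zero_right, rad_one_norm (by positivity) (min_le_right _ _)]
    exact (min_le_left _ _).trans_lt (by linarith)
  · exact rad_mem (by positivity) (min_le_right _ _) _

variable {G : Type} [Group G] {a b c : G} (ha : Commute c a) (hb : Commute c b)

theorem zp {g : G} {m : ℕ} (h : g ^ m = 1) : ∀ s ∈ Subgroup.zpowers g, s ^ m = 1 := by
  rintro _ ⟨k, rfl⟩
  simp only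
  rw [← zpow_natCast, ← zpow_mul, mul_comm, zpow_mul, zpow_natCast, h, one_zpow]

theorem core {W : Set Bs} {S : Subgroup G} {sg : Bs → G} (R : (coc a b c ha hb).Red W S sg) {m : ℕ}
    (hS : ∀ s ∈ S, s ^ m = 1) {y : Bs} (δ : Path y y) (xx tt : I × I → ℂ) (hx : Continuous xx)
    (ht : Continuous tt) (hne : ∀ p, xx p ≠ 0 ∧ tt p ≠ 0 ∧ tt p ≠ 1)
    (h0 : ∀ t, (xx (0, t), tt (0, t)) = (δ t).1)
    (hl : ∀ s, (xx (s, 0), tt (s, 0)) = (xx (s, 1), tt (s, 1)))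
    (h1 : ∀ t, (⟨(xx (1, t), tt (1, t)), hne _⟩ : Bs) ∈ W) :
    (coc a b c ha hb).hol δ ^ m = 1 :=
  Cocycle.hol_pow_eq_one R hS δ (fun p => ⟨(xx p, tt p), hne p⟩) (by fun_prop)
    (fun t => Subtype.ext (h0 t)) (fun s => Subtype.ext (hl s)) h1

section
variable {A B C : ℂ → ℂ} (hA : ContinuousOn A (Metric.closedBall 0 1))
  (hB : ContinuousOn B (Metric.closedBall 0 1)) (hC : ContinuousOn C (Metric.closedBall 0 1))
  {y : Bs} (δ : Path y y) (hδ : ∀ t, (δ t).1 = (B (circ t) / A (circ t), C (circ t) / B (circ t)))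
include hA hB hC hδ

theorem mer_inf {m : ℕ} (hc : c ^ m = 1)
    (nA : ∀ z ∈ Metric.closedBall (0 : ℂ) 1, z ≠ 0 → A z ≠ 0)
    (nB : ∀ z ∈ Metric.closedBall (0 : ℂ) 1, B z ≠ 0)
    (nC : ∀ z ∈ Metric.closedBall (0 : ℂ) 1, C z ≠ 0)
    (nD : ∀ z ∈ Metric.closedBall (0 : ℂ) 1, B z - C z ≠ 0) :
    (coc a b c ha hb).hol δ ^ m = 1 := by
  have m1 := rad_mem zero_le_one le_rfl
  have m0 := rad_mem le_rfl zero_le_one
  refine core ha hb (red_inf ha hb (C 0 / B 0)) (zp hc) δ (fun p => B (rad 1 p) / A (rad 1 p))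
    (fun p => C (rad 0 p) / B (rad 0 p))
    ((hB.comp_continuous (rad_cont _) m1).div (hA.comp_continuous (rad_cont _) m1)
      fun p => nA _ (m1 p) (rad_ne one_pos le_rfl p))
    ((hC.comp_continuous (rad_cont _) m0).div (hB.comp_continuous (rad_cont _) m0)
      fun p => nB _ (m0 p))
    (fun p => ⟨div_ne_zero (nB _ (m1 p)) (nA _ (m1 p) (rad_ne one_pos le_rfl p)),
      div_ne_zero (nC _ (m0 p)) (nB _ (m0 p)), fun h => nD _ (m0 p) ?_⟩)
    (fun t => ?_) (fun s => ?_) (fun t => ?_)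
  · rw [div_eq_one_iff_eq (nB _ (m0 p))] at h; rw [h, sub_self]
  · simp only [rad_zero, hδ]
  · simp only [rad_per]
  · simp only [Set.mem_setOf_eq, rad_one0]

theorem mer_gen {m : ℕ} {P : Set ℂ} {S : Subgroup G}
    (R : ∀ x0, (coc a b c ha hb).Red {p | p.1.1 = x0 ∧ p.1.2 ∈ P} S (fun _ => 1))
    (hS : ∀ s ∈ S, s ^ m = 1) (hP : ∀ᶠ y in 𝓝 (C 0 / B 0), y ∈ P)
    (nA : ∀ z ∈ Metric.closedBall (0 : ℂ) 1, A z ≠ 0)
    (nB : ∀ z ∈ Metric.closedBall (0 : ℂ) 1, B z ≠ 0)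
    (nC : ∀ z ∈ Metric.closedBall (0 : ℂ) 1, z ≠ 0 → C z ≠ 0)
    (nD : ∀ z ∈ Metric.closedBall (0 : ℂ) 1, z ≠ 0 → B z - C z ≠ 0) :
    (coc a b c ha hb).hol δ ^ m = 1 := by
  have z0 : (0 : ℂ) ∈ Metric.closedBall (0 : ℂ) 1 := by simp
  obtain ⟨r, r0, r1, hr⟩ := small (f := fun z => C z / B z)
    ((hC 0 z0).div (hB 0 z0) (nB 0 z0)) hP
  have m1 := rad_mem r0.le r1
  have m0 := rad_mem le_rfl zero_le_one
  refine core ha hb (R (B 0 / A 0)) hS δ (fun p => B (rad 0 p) / A (rad 0 p))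
    (fun p => C (rad r p) / B (rad r p))
    ((hB.comp_continuous (rad_cont _) m0).div (hA.comp_continuous (rad_cont _) m0)
      fun p => nA _ (m0 p))
    ((hC.comp_continuous (rad_cont _) m1).div (hB.comp_continuous (rad_cont _) m1)
      fun p => nB _ (m1 p))
    (fun p => ⟨div_ne_zero (nB _ (m0 p)) (nA _ (m0 p)),
      div_ne_zero (nC _ (m1 p) (rad_ne r0 r1 p)) (nB _ (m1 p)),
        fun h => nD _ (m1 p) (rad_ne r0 r1 p) ?_⟩)
    (fun t => ?_) (fun s => ?_) (fun t => ?_)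
  · rw [div_eq_one_iff_eq (nB _ (m1 p))] at h; rw [h, sub_self]
  · simp only [rad_zero, hδ]
  · simp only [rad_per]
  · exact ⟨by simp only [rad_one0], hr t⟩

theorem mer_far (hd : (c * a * b⁻¹) ^ 3 = 1) (hB0 : B 0 = 0)
    (nA : ∀ z ∈ Metric.closedBall (0 : ℂ) 1, A z ≠ 0)
    (nB : ∀ z ∈ Metric.closedBall (0 : ℂ) 1, z ≠ 0 → B z ≠ 0)
    (nC : ∀ z ∈ Metric.closedBall (0 : ℂ) 1, C z ≠ 0)
    (nD : ∀ z ∈ Metric.closedBall (0 : ℂ) 1, B z - C z ≠ 0) :
    (coc a b c ha hb).hol δ ^ 3 = 1 := by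
  have z0 : (0 : ℂ) ∈ Metric.closedBall (0 : ℂ) 1 := by simp
  obtain ⟨r, r0, r1, hr⟩ := small (f := fun z => B z / C z) (P := fun y => ‖y‖ < 1)
    ((hB 0 z0).div (hC 0 z0) (nC 0 z0))
    ((isOpen_lt continuous_norm continuous_const).mem_nhds (by simp [hB0]))
  have m1 := rad_mem r0.le r1
  have m0 := rad_mem le_rfl zero_le_one
  have nB' := fun p => nB _ (m1 p) (rad_ne r0 r1 p)
  have cT : Continuous fun p => C (rad r p) / B (rad r p) :=
    (hC.comp_continuous (rad_cont _) m1).div (hB.comp_continuous (rad_cont _) m1) nB'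
  have cY : Continuous fun p => C (rad 0 p) / A (rad 0 p) :=
    (hC.comp_continuous (rad_cont _) m0).div (hA.comp_continuous (rad_cont _) m0)
      fun p => nA _ (m0 p)
  have cE : Continuous fun p : I × I =>
    Complex.exp (-((p.1 : ℝ) : ℂ) * Complex.log (C 0 / A 0)) := by fun_prop
  refine core ha hb (red_far ha hb) (zp hd) δ
    (fun p => C (rad 0 p) / A (rad 0 p) * Complex.exp (-((p.1 : ℝ) : ℂ) * Complex.log (C 0 / A 0))
      / (C (rad r p) / B (rad r p)))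
    (fun p => C (rad r p) / B (rad r p))
    ((cY.mul cE).div cT fun p => div_ne_zero (nC _ (m1 p)) (nB' p)) cT
    (fun p => ⟨div_ne_zero (mul_ne_zero (div_ne_zero (nC _ (m0 p)) (nA _ (m0 p)))
        (Complex.exp_ne_zero _)) (div_ne_zero (nC _ (m1 p)) (nB' p)),
      div_ne_zero (nC _ (m1 p)) (nB' p), fun h => nD _ (m1 p) ?_⟩)
    (fun t => ?_) (fun s => ?_) (fun t => ⟨?_, ?_⟩)
  · rw [div_eq_one_iff_eq (nB' p)] at h; rw [h, sub_self]
  · have h1 := nC _ (m0 (0, t))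
    have h2 := nA _ (m0 (0, t))
    have h3 := nB' (0, t)
    simp only [rad_zero] at h1 h2 h3
    simp only [rad_zero, hδ, Set.Icc.coe_zero, Complex.ofReal_zero, neg_zero, zero_mul,
      Complex.exp_zero, mul_one]
    congr 1
    field_simp
  · simp only [rad_per]
  · have hy : C 0 / A 0 ≠ 0 := div_ne_zero (nC 0 z0) (nA 0 z0)
    simp only [rad_one0, Set.Icc.coe_one, Complex.ofReal_one, neg_mul, one_mul, Complex.exp_neg,
      Complex.exp_log hy, mul_inv_cancel₀ hy, one_div]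
  · have := hr t
    have h1 := norm_pos_iff.2 (nC _ (m1 (1, t)))
    have h2 := norm_pos_iff.2 (nB' (1, t))
    simp only [norm_div] at this ⊢
    rw [div_lt_one h1] at this
    rwa [one_lt_div h2]

end

end Pool.Agent.H124Z.Orb
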