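import Pool.Agent.H124Z.Orb.LC
import Pool.Agent.H124Z.Orb.Mer
import Pool.Agent.H124Z.Orb.Grp

set_option autoImplicit false

open Topology Filter unitInterval MvPolynomial

namespace Pool.Agent.H124Z.Orb

/-- the four lines -/
noncomputable def lines : Fin 4 → MvPolynomial (Fin 3) ℂ := ![X 0, X 1, X 2, X 1 - X 2]

theorem lines_homog (i : Fin 4) : (lines i).IsHomogeneous 1 := by
  fin_cases i
  · exact isHomogeneous_X _ _
  · exact isHomogeneous_X _ _
  · exact isHomogeneous_X _ _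
  · exact (isHomogeneous_X _ _).sub (isHomogeneous_X _ _)

theorem ev0 (v : Fin 3 → ℂ) : eval v (lines 0) = v 0 := by simp [lines]
theorem ev1 (v : Fin 3 → ℂ) : eval v (lines 1) = v 1 := by simp [lines]
theorem ev2 (v : Fin 3 → ℂ) : eval v (lines 2) = v 2 := by simp [lines]
theorem ev3 (v : Fin 3 → ℂ) : eval v (lines 3) = v 1 - v 2 := by simp [lines]

theorem lines_ne (i : Fin 4) : lines i ≠ 0 := by
  intro h
  have := congrArg (eval ![1, 2, 1]) h
  fin_cases i <;> simp [lines] at this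
  norm_num at this

theorem lines_irred (i : Fin 4) : Irreducible (lines i) := by
  refine irreducible_of_totalDegree_eq_one ((lines_homog i).totalDegree (lines_ne i)) ?_
  intro x hx
  rw [isUnit_iff_ne_zero]
  rintro rfl
  exact lines_ne i (MvPolynomial.ext _ _ fun m => by simpa using hx m)

theorem lines_distinct (i j : Fin 4) (h : Associated (lines i) (lines j)) : i = j := by
  obtain ⟨q, hq⟩ := h.dvd
  let pt : Fin 4 → Fin 3 → ℂ := ![![0, 2, 1], ![1, 0, 1], ![1, 1, 0], ![1, 1, 1]]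
  have := congrArg (eval (pt i)) hq
  rw [map_mul] at this
  fin_cases i <;> fin_cases j <;> simp [lines, pt] at this ⊢
  norm_num at this

/-- the boundary divisor -/
noncomputable def DD (m : ℕ) (hm : 2 ≤ m) : PlaneDiv where
  r := 4
  f := lines
  d := fun _ => 1
  b := ![1 - 1 / m, 2 / 3, 2 / 3, 2 / 3]
  homog := lines_homog
  irred := lines_irred
  distinct := lines_distinct
  b_pos i := by
    have : (2 : ℝ) ≤ m := by exact_mod_cast hm
    have h2 : 1 / (m : ℝ) ≤ 1 / 2 := one_div_le_one_div_of_le two_pos this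
    fin_cases i
    · show (0 : ℝ) < 1 - 1 / m
      linarith
    all_goals (show (0 : ℝ) < 2 / 3; norm_num)
  b_le i := by
    have : 0 ≤ 1 / (m : ℝ) := by positivity
    fin_cases i
    · show (1 - 1 / m : ℝ) ≤ 1
      linarith
    all_goals (show (2 / 3 : ℝ) ≤ 1; norm_num)

variable {m : ℕ} (hm : 2 ≤ m)

theorem sum_b (g : Fin 4 → ℝ) : ∑ i : Fin (DD m hm).r, (DD m hm).b i * g i =
    (1 - 1 / m) * g 0 + 2 / 3 * (g 1 + g 2 + g 3) := by
  show ∑ i : Fin 4, (![1 - 1 / m, 2 / 3, 2 / 3, 2 / 3] : Fin 4 → ℝ) i * g i = _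
  simp [Fin.sum_univ_four]; ring

theorem fano : (DD m hm).IsFano := by
  have h := sum_b hm (fun _ => 1)
  have : (0 : ℝ) < m := by exact_mod_cast (by omega : 0 < m)
  have h2 : 0 < 1 / (m : ℝ) := by positivity
  unfold PlaneDiv.IsFano
  have e : ∀ i, (((DD m hm).d i : ℕ) : ℝ) = 1 := fun i => by simp [DD]
  simp only [e]
  rw [h]; linarith

theorem lc : (DD m hm).IsLC := by
  intro j E
  have h2 : 0 ≤ 1 / (m : ℝ) := by positivity
  have n0 : (X 0 : MvPolynomial (Fin 2) ℂ) ≠ 0 := X_ne_zero _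
  have n1 : (X 1 : MvPolynomial (Fin 2) ℂ) ≠ 0 := X_ne_zero _
  have n2 : (X 0 - X 1 : MvPolynomial (Fin 2) ℂ) ≠ 0 := by
    intro h; simpa using congrArg (eval ![1, 0]) h
  have n3 : (1 - X 1 : MvPolynomial (Fin 2) ℂ) ≠ 0 := by
    intro h; simpa using congrArg (eval ![1, 0]) h
  have t1 : toK 1 = 1 := map_one _
  have t2 : toK (X 0 - X 1) = toK (X 0) - toK (X 1) := map_sub _ _ _
  have t3 : toK (1 - X 1) = 1 - toK (X 1) := by rw [← t1]; exact map_sub _ _ _
  have t4 : toK (X 1 - 1) = -(1 - toK (X 1)) := by rw [← t1, neg_sub]; exact map_sub _ _ _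
  have o0 := E.centre _ n0
  have o1 := E.centre _ n1
  have o3 := E.centre _ n3
  have k3 := toK_ne n3
  rw [t3] at o3 k3
  have hs := sum_b hm (fun i => (E.ord (toK (aeval (chart j) (lines i))) : ℝ))
  have o0' : (0 : ℝ) ≤ E.ord (toK (X 0)) := by exact_mod_cast o0
  have o1' : (0 : ℝ) ≤ E.ord (toK (X 1)) := by exact_mod_cast o1
  have o3' : (0 : ℝ) ≤ E.ord (1 - toK (X 1)) := by exact_mod_cast o3
  fin_cases j
  · obtain ⟨k, hk, hk'⟩ := E.lc_three (toK_ne n0) (toK_ne n1) (t2 ▸ toK_ne n2)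
    refine ⟨k, hk, ?_⟩
    erw [hs]
    have hk2 : (2 : ℝ) * (E.ord (toK (X 0)) + E.ord (toK (X 1)) + E.ord (toK (X 0) - toK (X 1)))
      ≤ 3 * (k + 1) := by exact_mod_cast hk'
    simp [lines, chart, t1, t2, E.ord_one]
    linarith
  · obtain ⟨k, hk, hk'⟩ := E.lc_two (toK_ne n0) (toK_ne n1) k3 o1 o3
    refine ⟨k, hk, ?_⟩
    erw [hs]
    have hk2 : (E.ord (toK (X 0)) + E.ord (toK (X 1)) + E.ord (1 - toK (X 1)) : ℝ)
      ≤ k + 1 := by exact_mod_cast hk'
    simp [lines, chart, t1, t3, E.ord_one]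
    have : 0 ≤ (m : ℝ)⁻¹ * E.ord (toK (X 0)) := by positivity
    nlinarith
  · obtain ⟨k, hk, hk'⟩ := E.lc_two (toK_ne n0) (toK_ne n1) k3 o1 o3
    refine ⟨k, hk, ?_⟩
    erw [hs]
    have hk2 : (E.ord (toK (X 0)) + E.ord (toK (X 1)) + E.ord (1 - toK (X 1)) : ℝ)
      ≤ k + 1 := by exact_mod_cast hk'
    have e4 : E.ord (toK (X 1 - 1)) = E.ord (1 - toK (X 1)) := by rw [t4, E.ord_neg k3]
    simp [lines, chart, t1, e4, E.ord_one]
    have : 0 ≤ (m : ℝ)⁻¹ * E.ord (toK (X 0)) := by positivity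
    nlinarith

theorem b_half (i : Fin (DD m hm).r) : 1 / 2 ≤ (DD m hm).b i := by
  have : (2 : ℝ) ≤ m := by exact_mod_cast hm
  have h2 : 1 / (m : ℝ) ≤ 1 / 2 := one_div_le_one_div_of_le two_pos this
  fin_cases i
  · show (1 / 2 : ℝ) ≤ 1 - 1 / m
    linarith
  all_goals (show (1 / 2 : ℝ) ≤ 2 / 3; norm_num)

theorem mult0 : (DD m hm).mult (0 : Fin 4) = m := by
  show ⌊1 / (1 - (1 - 1 / (m : ℝ)))⌋₊ = m
  simp

theorem mult3 : ⌊1 / (1 - (2 / 3 : ℝ))⌋₊ = 3 := by norm_num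

theorem rep_mk (v : Fin 3 → ℂ) (hv : v ≠ 0) : ∃ s : ℂ, s ≠ 0 ∧ ∀ i, (P2.mk v hv).rep i = s * v i := by
  obtain ⟨s, hs⟩ := Projectivization.exists_smul_eq_mk_rep ℂ v hv
  exact ⟨s, s.ne_zero, fun i => (congrFun hs i).symm⟩

theorem ratio_mk (v : Fin 3 → ℂ) (hv : v ≠ 0) (i j : Fin 3) :
    (P2.mk v hv).rep i / (P2.mk v hv).rep j = v i / v j := by
  obtain ⟨s, hs, h⟩ := rep_mk v hv
  rw [h, h, mul_div_mul_left _ _ hs]

theorem quot : IsQuotientMap (fun v : {v : Fin 3 → ℂ // v ≠ 0} => P2.mk v.1 v.2) :=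
  isQuotientMap_quotient_mk' (s := projectivizationSetoid ℂ (Fin 3 → ℂ))

theorem pre (j : Fin 3) : (fun v : {v : Fin 3 → ℂ // v ≠ 0} => P2.mk v.1 v.2) ⁻¹'
    {p | p.rep j ≠ 0} = {v | v.1 j ≠ 0} := by
  ext v
  obtain ⟨s, hs, h⟩ := rep_mk v.1 v.2
  simp [h, hs]

theorem ratio_cont (i j : Fin 3) :
    ContinuousOn (fun p : P2 => p.rep i / p.rep j) {p | p.rep j ≠ 0} := by
  have ho : IsOpen {p : P2 | p.rep j ≠ 0} := by
    rw [← quot.isOpen_preimage, pre]
    exact isOpen_ne_fun ((continuous_apply j).comp continuous_subtype_val) continuous_const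
  rw [quot.continuousOn_isOpen_iff ho, pre]
  have : ((fun p : P2 => p.rep i / p.rep j) ∘ fun v : {v : Fin 3 → ℂ // v ≠ 0} => P2.mk v.1 v.2)
      = fun v => v.1 i / v.1 j := by
    funext v; exact ratio_mk _ _ _ _
  rw [this]
  exact ContinuousOn.div ((continuous_apply i).comp continuous_subtype_val).continuousOn
    ((continuous_apply j).comp continuous_subtype_val).continuousOn fun v hv => hv

theorem U_ne (p : (DD m hm).U) :
    p.1.rep 0 ≠ 0 ∧ p.1.rep 1 ≠ 0 ∧ p.1.rep 2 ≠ 0 ∧ p.1.rep 1 - p.1.rep 2 ≠ 0 :=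
  ⟨(ev0 _).symm.trans_ne (p.2 (0 : Fin 4) (b_half hm _)),
    (ev1 _).symm.trans_ne (p.2 (1 : Fin 4) (b_half hm _)),
    (ev2 _).symm.trans_ne (p.2 (2 : Fin 4) (b_half hm _)),
    (ev3 _).symm.trans_ne (p.2 (3 : Fin 4) (b_half hm _))⟩

/-- coordinates on the complement -/
noncomputable def kap : C((DD m hm).U, Bs) where
  toFun p := ⟨(p.1.rep 1 / p.1.rep 0, p.1.rep 2 / p.1.rep 1),
    div_ne_zero (U_ne hm p).2.1 (U_ne hm p).1, div_ne_zero (U_ne hm p).2.2.1 (U_ne hm p).2.1,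
    fun h => (U_ne hm p).2.2.2 (by
      rw [div_eq_one_iff_eq (U_ne hm p).2.1] at h; rw [h, sub_self])⟩
  continuous_toFun := by
    refine Continuous.subtype_mk (Continuous.prodMk ?_ ?_) _
    · exact (ratio_cont 1 0).comp_continuous continuous_subtype_val fun p => (U_ne hm p).1
    · exact (ratio_cont 2 1).comp_continuous continuous_subtype_val fun p => (U_ne hm p).2.1

theorem vec_ne (q : Bs) : (![1, q.1.1, q.1.1 * q.1.2] : Fin 3 → ℂ) ≠ 0 := fun h => by
  simpa using congrFun h 0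

/-- the inverse map -/
noncomputable def emb : C(Bs, (DD m hm).U) where
  toFun q := ⟨P2.mk ![1, q.1.1, q.1.1 * q.1.2] (vec_ne q), fun i _ => by
    obtain ⟨s, hs, h⟩ := rep_mk _ (vec_ne q)
    have h1 := q.2.1
    have h2 := q.2.2.1
    have h3 := sub_ne_zero.2 q.2.2.2.symm
    fin_cases i
    · erw [ev0, h]; simpa using hs
    · erw [ev1, h]; simp [hs, h1]
    · erw [ev2, h]; simp [hs, h1, h2]
    · erw [ev3, h, h]
      have : s * q.1.1 * (1 - q.1.2) ≠ 0 := mul_ne_zero (mul_ne_zero hs h1) h3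
      intro h'; apply this
      simp only [Matrix.cons_val_one, Matrix.cons_val_zero, Matrix.cons_val] at h'
      linear_combination h'⟩
  continuous_toFun := by
    refine Continuous.subtype_mk ?_ _
    have : Continuous fun q : Bs => (⟨![1, q.1.1, q.1.1 * q.1.2], vec_ne q⟩ :
        {v : Fin 3 → ℂ // v ≠ 0}) := by
      refine Continuous.subtype_mk ?_ _
      fun_prop
    exact quot.continuous.comp this

theorem kap_emb (q : Bs) : kap hm (emb hm q) = q := by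
  apply Subtype.ext
  have h1 := q.2.1
  show ((P2.mk _ (vec_ne q)).rep 1 / (P2.mk _ (vec_ne q)).rep 0,
    (P2.mk _ (vec_ne q)).rep 2 / (P2.mk _ (vec_ne q)).rep 1) = q.1
  rw [ratio_mk, ratio_mk]
  ext <;> simp [h1]

theorem emb_kap (p : (DD m hm).U) : emb hm (kap hm p) = p := by
  apply Subtype.ext
  obtain ⟨h0, h1, -, -⟩ := U_ne hm p
  show P2.mk _ (vec_ne (kap hm p)) = p.1
  rw [← Projectivization.mk_rep (K := ℂ) p.1]
  refine (Projectivization.mk_eq_mk_iff' ℂ _ _ _ _).2 ⟨(p.1.rep 0)⁻¹, ?_⟩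
  funext i
  fin_cases i
  · show (p.1.rep 0)⁻¹ * p.1.rep 0 = 1
    field_simp
  · show (p.1.rep 0)⁻¹ * p.1.rep 1 = p.1.rep 1 / p.1.rep 0
    field_simp
  · show (p.1.rep 0)⁻¹ * p.1.rep 2 = p.1.rep 1 / p.1.rep 0 * (p.1.rep 2 / p.1.rep 1)
    field_simp

theorem joined (q : Bs) : Joined q b0 := by
  have r : 1 < Module.rank ℝ ℂ := by simp
  have h1 := (Set.countable_singleton (0 : ℂ)).isPathConnected_compl_of_one_lt_rank r
  have h2 := ((Set.countable_singleton (1 : ℂ)).insert 0).isPathConnected_compl_of_one_lt_rank r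
  have h3 := h1.prod h2
  have e : ({(0 : ℂ)}ᶜ : Set ℂ) ×ˢ (({0, 1} : Set ℂ)ᶜ) =
      {p : ℂ × ℂ | p.1 ≠ 0 ∧ p.2 ≠ 0 ∧ p.2 ≠ 1} := by
    ext p; simp
  rw [e] at h3
  exact (h3.joinedIn q.1 q.2 b0.1 b0.2).joined_subtype

section
variable {G : Type} [Group G] {a b c : G} (ha : Commute c a) (hb : Commute c b)

/-- the representation of the fundamental group of the complement -/
noncomputable def rho (u : (DD m hm).U) : FundamentalGroup (DD m hm).U u →* G :=
  ((coc a b c ha hb).mono (kap hm u)).comp (FundamentalGroup.map (kap hm) u)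

theorem rho_conj {u w : (DD m hm).U} (β : Path u w) (δ : Path w w) :
    rho hm ha hb u (FundamentalGroup.fromPath
      (Path.Homotopic.Quotient.mk (β.trans (δ.trans β.symm)))) =
    ((coc a b c ha hb).hol (β.map (kap hm).continuous))⁻¹ *
      (coc a b c ha hb).hol (δ.map (kap hm).continuous) *
      (coc a b c ha hb).hol (β.map (kap hm).continuous) := by
  show (coc a b c ha hb).hol ((β.trans (δ.trans β.symm)).map (kap hm).continuous) = _
  rw [Path.map_trans, Path.map_trans, ← Path.map_symm, Cocycle.hol_trans, Cocycle.hol_trans,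
    Cocycle.hol_symm]

theorem rho_rel (h3a : a ^ 3 = 1) (h3b : b ^ 3 = 1) (hc : c ^ m = 1) (hd : (c * a * b⁻¹) ^ 3 = 1)
    (u : (DD m hm).U) : ∀ x ∈ (DD m hm).rels u, rho hm ha hb u x = 1 := by
  rintro _ ⟨i, g, -, -, ⟨φ, w, β, δ, hφ, -, h0, -, hne, hδ, rfl⟩, rfl⟩
  rw [map_pow, rho_conj]
  have hc' : ∀ k, ContinuousOn (fun z => φ z k) (Metric.closedBall 0 1) := fun k =>
    (continuous_apply k).comp_continuousOn hφ.continuousOn
  have hδ' : ∀ t, ((δ.map (kap hm).continuous) t).1 =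
      (φ (circ t) 1 / φ (circ t) 0, φ (circ t) 2 / φ (circ t) 1) := by
    intro t
    obtain ⟨h, e⟩ := hδ t
    show ((δ t).1.rep 1 / (δ t).1.rep 0, (δ t).1.rep 2 / (δ t).1.rep 1) = _
    rw [e, ratio_mk, ratio_mk]; rfl
  have N0 := fun z hz h => (ev0 (φ z)).symm.trans_ne (hne z hz (0 : Fin 4) (b_half hm _) h)
  have N1 := fun z hz h => (ev1 (φ z)).symm.trans_ne (hne z hz (1 : Fin 4) (b_half hm _) h)
  have N2 := fun z hz h => (ev2 (φ z)).symm.trans_ne (hne z hz (2 : Fin 4) (b_half hm _) h)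
  have N3 := fun z hz h => (ev3 (φ z)).symm.trans_ne (hne z hz (3 : Fin 4) (b_half hm _) h)
  have key : (coc a b c ha hb).hol (δ.map (kap hm).continuous) ^ (DD m hm).mult i = 1 := by
    fin_cases i
    · erw [mult0]
      exact mer_inf ha hb (hc' 0) (hc' 1) (hc' 2) _ hδ' hc (fun z hz h => N0 z hz (Or.inl h))
        (fun z hz => N1 z hz (Or.inr (show (1 : Fin 4) ≠ 0 by decide))) (fun z hz => N2 z hz (Or.inr (show (2 : Fin 4) ≠ 0 by decide)))
        (fun z hz => N3 z hz (Or.inr (show (3 : Fin 4) ≠ 0 by decide)))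
    · have : (DD m hm).mult (1 : Fin 4) = 3 := mult3
      erw [this]
      exact mer_far ha hb (hc' 0) (hc' 1) (hc' 2) _ hδ' hd ((ev1 _).symm.trans h0)
        (fun z hz => N0 z hz (Or.inr (show (0 : Fin 4) ≠ 1 by decide))) (fun z hz h => N1 z hz (Or.inl h))
        (fun z hz => N2 z hz (Or.inr (show (2 : Fin 4) ≠ 1 by decide))) (fun z hz => N3 z hz (Or.inr (show (3 : Fin 4) ≠ 1 by decide)))
    · have : (DD m hm).mult (2 : Fin 4) = 3 := mult3
      erw [this]
      have h0' : φ 0 2 = 0 := (ev2 _).symm.trans h0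
      exact mer_gen ha hb (hc' 0) (hc' 1) (hc' 2) _ hδ' (red_zero ha hb) (zp h3a)
        (ev_re_lt (by simp [h0']))
        (fun z hz => N0 z hz (Or.inr (show (0 : Fin 4) ≠ 2 by decide))) (fun z hz => N1 z hz (Or.inr (show (1 : Fin 4) ≠ 2 by decide)))
        (fun z hz h => N2 z hz (Or.inl h)) (fun z hz h => N3 z hz (Or.inr (show (3 : Fin 4) ≠ 2 by decide)))
    · have : (DD m hm).mult (3 : Fin 4) = 3 := mult3
      erw [this]
      have h0' : φ 0 1 - φ 0 2 = 0 := (ev3 _).symm.trans h0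
      have h1 : φ 0 1 ≠ 0 := N1 0 (by simp) (Or.inr (show (1 : Fin 4) ≠ 3 by decide))
      have h2 : φ 0 2 / φ 0 1 = 1 := by rw [← sub_eq_zero.1 h0', div_self h1]
      exact mer_gen ha hb (hc' 0) (hc' 1) (hc' 2) _ hδ' (red_one ha hb) (zp h3b)
        (ev_re_gt (by rw [h2]; norm_num))
        (fun z hz => N0 z hz (Or.inr (show (0 : Fin 4) ≠ 3 by decide))) (fun z hz => N1 z hz (Or.inr (show (1 : Fin 4) ≠ 3 by decide)))
        (fun z hz h => N2 z hz (Or.inr (show (2 : Fin 4) ≠ 3 by decide))) (fun z hz h => N3 z hz (Or.inl h))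
  have := conj_pow (i := (DD m hm).mult i)
    (a := ((coc a b c ha hb).hol (β.map (kap hm).continuous))⁻¹)
    (b := (coc a b c ha hb).hol (δ.map (kap hm).continuous))
  rw [inv_inv] at this
  rw [this, key]; group

theorem hol_congr {x y x' y' : Bs} (γ : Path x y) (γ' : Path x' y') (h : ∀ t, γ t = γ' t) :
    (coc a b c ha hb).hol γ = (coc a b c ha hb).hol γ' := by
  obtain ⟨k, H⟩ := (coc a b c ha hb).exists_flat_I γ γ.continuous
  have H' : (coc a b c ha hb).Flat γ' k := by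
    have : (γ' : I → Bs) = γ := by funext t; exact (h t).symm
    rw [this]; exact H
  rw [Cocycle.hol_eq H, Cocycle.hol_eq H']

theorem rho_gen (u : (DD m hm).U) : ∃ (g : G) (x y : FundamentalGroup (DD m hm).U u),
    rho hm ha hb u x = g⁻¹ * a⁻¹ * g ∧ rho hm ha hb u y = g⁻¹ * b⁻¹ * g := by
  obtain ⟨β0⟩ := joined (kap hm u)
  let β : Path u (emb hm b0) := (β0.map (emb hm).continuous).cast (emb_kap hm u).symm rfl
  have key : ∀ (s : ℝ) (hs : s = 1 ∨ s = -1), (coc a b c ha hb).hol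
      (((loop s hs).map (emb hm).continuous).map (kap hm).continuous) =
      (if s < 0 then a else b)⁻¹ := by
    intro s hs
    rw [← hol_loop ha hb s hs]
    exact hol_congr ha hb _ _ fun t => kap_emb hm _
  refine ⟨(coc a b c ha hb).hol (β.map (kap hm).continuous), _, _,
    (rho_conj hm ha hb β ((loop (-1) (Or.inr rfl)).map (emb hm).continuous)).trans ?_,
    (rho_conj hm ha hb β ((loop 1 (Or.inl rfl)).map (emb hm).continuous)).trans ?_⟩
  · rw [key]; norm_num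
  · rw [key]; norm_num

end

theorem main (N : ℕ) : ∃ D : PlaneDiv, D.IsLC ∧ D.IsFano ∧ Nonempty D.U ∧
    ∀ (u : D.U) (A : Subgroup (D.pi1orb u)), (∀ x ∈ A, ∀ y ∈ A, x * y = y * x) →
      A.index = 0 ∨ N < A.index := by
  obtain ⟨m, G, _, a, b, c, hm, ha, hb, h3a, h3b, hc, hd, hN⟩ := exists_group N
  refine ⟨DD m hm, lc hm, fano hm, ⟨emb hm b0⟩, fun u A hA => ?_⟩
  by_contra hcon
  push Not at hcon
  let ρ : (DD m hm).pi1orb u →* G := QuotientGroup.lift _ (rho hm ha hb u)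
    (Subgroup.normalClosure_le_normal (N := (rho hm ha hb u).ker)
      (rho_rel hm ha hb h3a h3b hc hd u))
  obtain ⟨g, x, y, hx, hy⟩ := rho_gen hm ha hb u
  obtain ⟨i, i0, i1, hi⟩ := Subgroup.exists_pow_mem_of_index_ne_zero hcon.1
    ((x * y : FundamentalGroup _ u) : (DD m hm).pi1orb u)
  obtain ⟨j, j0, j1, hj⟩ := Subgroup.exists_pow_mem_of_index_ne_zero hcon.1
    ((y * x : FundamentalGroup _ u) : (DD m hm).pi1orb u)
  have e := congrArg ρ (hA _ hi _ hj)
  have e1 : ρ ((x * y : FundamentalGroup _ u) : (DD m hm).pi1orb u) = g⁻¹ * (a⁻¹ * b⁻¹) * g⁻¹⁻¹ := by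
    show rho hm ha hb u (x * y) = _
    rw [map_mul, hx, hy]; group
  have e2 : ρ ((y * x : FundamentalGroup _ u) : (DD m hm).pi1orb u) = g⁻¹ * (b⁻¹ * a⁻¹) * g⁻¹⁻¹ := by
    show rho hm ha hb u (y * x) = _
    rw [map_mul, hx, hy]; group
  rw [map_mul, map_mul, map_pow, map_pow, e1, e2, conj_pow, conj_pow] at e
  apply hN i j i0 (i1.trans hcon.2) j0 (j1.trans hcon.2)
  set P := (a⁻¹ * b⁻¹) ^ i
  set Q := (b⁻¹ * a⁻¹) ^ j
  show P * Q = Q * P
  calc P * Q = g * (g⁻¹ * P * g⁻¹⁻¹ * (g⁻¹ * Q * g⁻¹⁻¹)) * g⁻¹ := by group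
    _ = _ := by rw [e]; group

end Pool.Agent.H124Z.Orb
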