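import Pool.Agent.H124Z.Orb.Flat

set_option autoImplicit false

open Topology Filter unitInterval

namespace Pool.Agent.H124Z.Orb

/-- the base space in coordinates `(x,t)` -/
abbrev Bs : Type := {p : ℂ × ℂ // p.1 ≠ 0 ∧ p.2 ≠ 0 ∧ p.2 ≠ 1}

/-- charts in the `t` plane -/
def TV : Bool → Set ℂ
  | false => {z | z.im ≠ 0 ∨ (0 < z.re ∧ z.re < 1)}
  | true => {z | z.re < 0 ∨ 1 < z.re}

/-- charts in the `x` plane -/
def XV : Bool → Set ℂ
  | false => {z | z.im ≠ 0 ∨ 0 < z.re}
  | true => {z | z.re < 0}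

theorem TV_open (e : Bool) : IsOpen (TV e) := by
  cases e
  · exact (isOpen_ne_fun Complex.continuous_im continuous_const).union
      ((isOpen_lt continuous_const Complex.continuous_re).inter
        (isOpen_lt Complex.continuous_re continuous_const))
  · exact (isOpen_lt Complex.continuous_re continuous_const).union
      (isOpen_lt continuous_const Complex.continuous_re)

theorem XV_open (e : Bool) : IsOpen (XV e) := by
  cases e
  · exact (isOpen_ne_fun Complex.continuous_im continuous_const).union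
      (isOpen_lt continuous_const Complex.continuous_re)
  · exact isOpen_lt Complex.continuous_re continuous_const

theorem TV_cover {z : ℂ} (h0 : z ≠ 0) (h1 : z ≠ 1) : ∃ e, z ∈ TV e := by
  by_cases h : z.im = 0
  · have a0 : z.re ≠ 0 := fun hh => h0 (Complex.ext hh h)
    have a1 : z.re ≠ 1 := fun hh => h1 (Complex.ext hh h)
    by_cases h2 : z.re < 0 ∨ 1 < z.re
    · exact ⟨true, h2⟩
    · push Not at h2
      exact ⟨false, Or.inr ⟨lt_of_le_of_ne h2.1 a0.symm, lt_of_le_of_ne h2.2 a1⟩⟩
  · exact ⟨false, Or.inl h⟩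

theorem XV_cover {z : ℂ} (h0 : z ≠ 0) : ∃ e, z ∈ XV e := by
  by_cases h : z.im = 0
  · have a0 : z.re ≠ 0 := fun hh => h0 (Complex.ext hh h)
    rcases lt_or_gt_of_ne a0 with h2 | h2
    · exact ⟨true, h2⟩
    · exact ⟨false, Or.inr h2⟩
  · exact ⟨false, Or.inl h⟩

variable {G : Type} [Group G]

/-- trivialisations in the `t` plane -/
noncomputable def tT (a b : G) : Bool → ℂ → G
  | false, _ => 1
  | true, z => if 0 ≤ z.im then 1 else if z.re < 1 / 2 then a else b

/-- trivialisations in the `x` plane -/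
noncomputable def tX (c : G) : Bool → ℂ → G
  | false, _ => 1
  | true, z => if 0 < z.im then 1 else c⁻¹

theorem ev_im_pos {z : ℂ} (h : 0 < z.im) : ∀ᶠ y in 𝓝 z, 0 < y.im :=
  (isOpen_lt continuous_const Complex.continuous_im).mem_nhds h
theorem ev_im_neg {z : ℂ} (h : z.im < 0) : ∀ᶠ y in 𝓝 z, y.im < 0 :=
  (isOpen_lt Complex.continuous_im continuous_const).mem_nhds h
theorem ev_re_gt {z : ℂ} {r : ℝ} (h : r < z.re) : ∀ᶠ y in 𝓝 z, r < y.re :=
  (isOpen_lt continuous_const Complex.continuous_re).mem_nhds h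
theorem ev_re_lt {z : ℂ} {r : ℝ} (h : z.re < r) : ∀ᶠ y in 𝓝 z, y.re < r :=
  (isOpen_lt Complex.continuous_re continuous_const).mem_nhds h

theorem tT_lc (a b : G) {z : ℂ} (h0 : z ∈ TV false) (h1 : z ∈ TV true) :
    ∀ᶠ y in 𝓝 z, tT a b true y = tT a b true z := by
  have him : z.im ≠ 0 := by
    rcases h0 with h | h
    · exact h
    · rcases h1 with h' | h' <;> linarith [h.1, h.2]
  rcases lt_or_gt_of_ne him with h | h
  · rcases h1 with h' | h'
    · filter_upwards [ev_im_neg h, ev_re_lt h'] with y e1 e2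
      simp only [tT]
      rw [if_neg (not_le.2 e1), if_neg (not_le.2 h), if_pos (by linarith), if_pos (by linarith)]
    · filter_upwards [ev_im_neg h, ev_re_gt h'] with y e1 e2
      simp only [tT]
      rw [if_neg (not_le.2 e1), if_neg (not_le.2 h), if_neg (by linarith), if_neg (by linarith)]
  · filter_upwards [ev_im_pos h] with y e1
    simp only [tT]
    rw [if_pos e1.le, if_pos h.le]

theorem tX_lc (c : G) {z : ℂ} (h0 : z ∈ XV false) (h1 : z ∈ XV true) :
    ∀ᶠ y in 𝓝 z, tX c true y = tX c true z := by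
  have him : z.im ≠ 0 := by
    rcases h0 with h | h
    · exact h
    · have : z.re < 0 := h1
      linarith
  rcases lt_or_gt_of_ne him with h | h
  · filter_upwards [ev_im_neg h] with y e1
    simp only [tX]
    rw [if_neg (not_lt.2 e1.le), if_neg (not_lt.2 h.le)]
  · filter_upwards [ev_im_pos h] with y e1
    simp only [tX]
    rw [if_pos e1, if_pos h]

theorem tT_lc2 (a b : G) (i j : Bool) {z : ℂ} (h0 : z ∈ TV i) (h1 : z ∈ TV j) :
    ∀ᶠ y in 𝓝 z, tT a b j y * (tT a b i y)⁻¹ = tT a b j z * (tT a b i z)⁻¹ := by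
  cases i <;> cases j
  · simp
  · filter_upwards [tT_lc a b h0 h1] with y e; rw [e]; rfl
  · filter_upwards [tT_lc a b h1 h0] with y e; rw [e]; rfl
  · simp

theorem tX_lc2 (c : G) (i j : Bool) {z : ℂ} (h0 : z ∈ XV i) (h1 : z ∈ XV j) :
    ∀ᶠ y in 𝓝 z, tX c j y * (tX c i y)⁻¹ = tX c j z * (tX c i z)⁻¹ := by
  cases i <;> cases j
  · simp
  · filter_upwards [tX_lc c h0 h1] with y e; rw [e]; rfl
  · filter_upwards [tX_lc c h1 h0] with y e; rw [e]; rfl
  · simp

theorem comm_tt {a b c : G} (ha : Commute c a) (hb : Commute c b) (i j : Bool) (z w : ℂ) :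
    Commute (tX c i z) (tT a b j w) := by
  have h1 : Commute c (tT a b j w) := by
    cases j
    · exact Commute.one_right _
    · simp only [tT]; split_ifs
      exacts [Commute.one_right _, ha, hb]
  cases i
  · exact Commute.one_left _
  · simp only [tX]; split_ifs
    exacts [Commute.one_left _, h1.inv_left]

theorem cx : Continuous fun p : Bs => p.1.1 := by fun_prop
theorem ct : Continuous fun p : Bs => p.1.2 := by fun_prop

/-- the cocycle -/
noncomputable def coc (a b c : G) (ha : Commute c a) (hb : Commute c b) :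
    Cocycle Bs G (Bool × Bool) where
  V i := {p | p.1.2 ∈ TV i.1 ∧ p.1.1 ∈ XV i.2}
  isOpen i := ((TV_open _).preimage ct).inter ((XV_open _).preimage cx)
  idx p := ((TV_cover p.2.2.1 p.2.2.2).choose, (XV_cover p.2.1).choose)
  mem p := ⟨(TV_cover p.2.2.1 p.2.2.2).choose_spec, (XV_cover p.2.1).choose_spec⟩
  τ i p := tT a b i.1 p.1.2 * tX c i.2 p.1.1
  lc i j p hi hj := by
    have key : ∀ q : Bs, tT a b j.1 q.1.2 * tX c j.2 q.1.1 * (tT a b i.1 q.1.2 * tX c i.2 q.1.1)⁻¹
        = (tT a b j.1 q.1.2 * (tT a b i.1 q.1.2)⁻¹) * (tX c j.2 q.1.1 * (tX c i.2 q.1.1)⁻¹) := by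
      intro q
      have := ((comm_tt ha hb j.2 i.1 q.1.1 q.1.2).mul_left
        (comm_tt ha hb i.2 i.1 q.1.1 q.1.2).inv_left).inv_right.eq
      rw [mul_inv_rev, mul_assoc, ← mul_assoc (tX c j.2 q.1.1), this, mul_assoc]
    filter_upwards [ct.continuousAt.eventually (tT_lc2 a b i.1 j.1 hi.1 hj.1),
      cx.continuousAt.eventually (tX_lc2 c i.2 j.2 hi.2 hj.2)] with q e1 e2
    rw [key, key, e1, e2]

section
variable {a b c : G} (ha : Commute c a) (hb : Commute c b)

theorem red_inf (t0 : ℂ) :
    (coc a b c ha hb).Red {p | p.1.2 = t0} (Subgroup.zpowers c) (fun _ => 1) := by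
  intro p hp
  refine ⟨_, (coc a b c ha hb).mem p, Eventually.of_forall fun q hq => ?_⟩
  have e : q.1.2 = p.1.2 := by rw [show q.1.2 = t0 from hq, show p.1.2 = t0 from hp]
  have hX : ∀ i z, tX c i z ∈ Subgroup.zpowers c := by
    intro i z
    cases i
    · exact one_mem _
    · simp only [tX]; split_ifs
      exacts [one_mem _, inv_mem (Subgroup.mem_zpowers c)]
  simp only [coc, e, mul_one, mul_inv_rev, mul_assoc, inv_mul_cancel_left]
  exact mul_mem (inv_mem (hX _ _)) (hX _ _)

theorem red_gen (x0 : ℂ) (P : Set ℂ) (S : Subgroup G) (hP : ∀ i, ∀ z ∈ P, tT a b i z ∈ S) :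
    (coc a b c ha hb).Red {p | p.1.1 = x0 ∧ p.1.2 ∈ P} S (fun _ => 1) := by
  intro p hp
  refine ⟨_, (coc a b c ha hb).mem p, Eventually.of_forall fun q hq => ?_⟩
  have e : q.1.1 = p.1.1 := by rw [hq.1, hp.1]
  simp only [coc, e, mul_one]
  rw [← (comm_tt ha hb _ _ _ _).eq, ← (comm_tt ha hb _ _ _ _).eq]
  simp only [mul_inv_rev, mul_assoc, inv_mul_cancel_left]
  exact mul_mem (inv_mem (hP _ _ hp.2)) (hP _ _ hq.2)

theorem red_zero (x0 : ℂ) :
    (coc a b c ha hb).Red {p | p.1.1 = x0 ∧ p.1.2 ∈ {z : ℂ | z.re < 1 / 2}} (Subgroup.zpowers a)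
      (fun _ => 1) := by
  refine red_gen ha hb x0 _ _ fun i z hz => ?_
  cases i
  · exact one_mem _
  · simp only [tT]
    rw [if_pos (show z.re < 1 / 2 from hz)]
    split_ifs
    exacts [one_mem _, Subgroup.mem_zpowers a]

theorem red_one (x0 : ℂ) :
    (coc a b c ha hb).Red {p | p.1.1 = x0 ∧ p.1.2 ∈ {z : ℂ | 1 / 2 < z.re}} (Subgroup.zpowers b)
      (fun _ => 1) := by
  refine red_gen ha hb x0 _ _ fun i z hz => ?_
  cases i
  · exact one_mem _
  · simp only [tT]
    rw [if_neg (not_lt.2 (le_of_lt (show 1 / 2 < z.re from hz)))]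
    split_ifs
    exacts [one_mem _, Subgroup.mem_zpowers b]

theorem red_far :
    (coc a b c ha hb).Red {p | p.1.1 = p.1.2⁻¹ ∧ 1 < ‖p.1.2‖} (Subgroup.zpowers (c * a * b⁻¹))
      (fun p => if 0 ≤ p.1.2.im then 1 else b⁻¹) := by
  intro p hp
  have hN : ∀ q : Bs, 0 < Complex.normSq q.1.2 := fun q => Complex.normSq_pos.2 q.2.2.1
  have him : ∀ q : Bs, q.1.1 = q.1.2⁻¹ → q.1.1.im = -q.1.2.im / Complex.normSq q.1.2 :=
    fun q hq => by rw [hq, Complex.inv_im]
  have hre : ∀ q : Bs, q.1.1 = q.1.2⁻¹ → q.1.1.re = q.1.2.re / Complex.normSq q.1.2 :=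
    fun q hq => by rw [hq, Complex.inv_re]
  by_cases h : p.1.2.im = 0
  · have hab : 1 < |p.1.2.re| := by
      have := hp.2
      rwa [← Complex.abs_re_eq_norm.2 h] at this
    rcases lt_abs.1 hab with h1 | h1
    · refine ⟨(true, false), ⟨Or.inr h1, Or.inr ?_⟩, ?_⟩
      · rw [hre p hp.1]; exact div_pos (by linarith) (hN p)
      · filter_upwards [ct.continuousAt.eventually (ev_re_gt h1)] with q e _
        simp only [coc, tT, tX, h, le_refl, if_true, mul_one, inv_one, one_mul]
        rw [if_neg (show ¬ q.1.2.re < 1 / 2 by linarith)]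
        split_ifs <;> simp
    · refine ⟨(true, true), ⟨Or.inl (by linarith), ?_⟩, ?_⟩
      · show p.1.1.re < 0
        rw [hre p hp.1]; exact div_neg_of_neg_of_pos (by linarith) (hN p)
      · filter_upwards [ct.continuousAt.eventually (ev_re_lt (show p.1.2.re < 0 by linarith))]
          with q e hq
        have p0 : ¬ 0 < p.1.1.im := by rw [him p hp.1, h]; simp
        simp only [coc, tT, tX, h, le_refl, if_true, mul_one, one_mul, if_neg p0, inv_inv]
        rw [if_pos (show q.1.2.re < 1 / 2 by linarith)]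
        by_cases hq0 : 0 ≤ q.1.2.im
        · have : ¬ 0 < q.1.1.im := by
            rw [him q hq.1, not_lt]
            exact div_nonpos_of_nonpos_of_nonneg (by linarith) (hN q).le
          simp [hq0, this]
        · have : 0 < q.1.1.im := by
            rw [him q hq.1]
            exact div_pos (by linarith) (hN q)
          simp only [hq0, this, if_true, if_false, mul_one, ← mul_assoc]
          exact Subgroup.mem_zpowers _
  · have hx : p.1.1.im ≠ 0 := by
      rw [him p hp.1]; exact div_ne_zero (neg_ne_zero.2 h) (hN p).ne'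
    refine ⟨(false, false), ⟨Or.inl h, Or.inl hx⟩, ?_⟩
    rcases lt_or_gt_of_ne h with h1 | h1
    · filter_upwards [ct.continuousAt.eventually (ev_im_neg h1)] with q e _
      simp [coc, tT, tX, not_le.2 h1, not_le.2 e]
    · filter_upwards [ct.continuousAt.eventually (ev_im_pos h1)] with q e _
      simp [coc, tT, tX, h1.le, e.le]

/-- polynomial loops -/
noncomputable def lp (s : ℝ) (θ : ℝ) : ℂ := ⟨1 / 2 + s * (4 * θ * (1 - θ)), θ * (1 - θ) * (1 - 2 * θ)⟩

theorem lp_cont (s : ℝ) : Continuous (lp s) := by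
  have : lp s = fun θ : ℝ => ((1 / 2 + s * (4 * θ * (1 - θ)) : ℝ) : ℂ) +
      ((θ * (1 - θ) * (1 - 2 * θ) : ℝ) : ℂ) * Complex.I := by
    funext θ; apply Complex.ext <;> simp [lp]
  rw [this]; fun_prop

theorem lp_cases (s : ℝ) (θ : I) : (0 < (lp s θ).im ∧ (θ : ℝ) < 1 / 2) ∨
    ((lp s θ).im < 0 ∧ 1 / 2 < (θ : ℝ)) ∨
    ((lp s θ).im = 0 ∧ (((lp s θ).re = 1 / 2 ∧ ((θ : ℝ) = 0 ∨ (θ : ℝ) = 1)) ∨
      ((lp s θ).re = 1 / 2 + s ∧ (θ : ℝ) = 1 / 2))) := by
  obtain ⟨θ, h0, h1⟩ := θ
  simp only [lp]
  rcases h0.eq_or_lt with h | h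
  · subst h; simp
  rcases h1.eq_or_lt with h' | h'
  · subst h'; simp
  rcases lt_trichotomy θ (1 / 2) with h2 | h2 | h2
  · left; exact ⟨mul_pos (mul_pos h (by linarith)) (by linarith), h2⟩
  · subst h2; right; right; norm_num
  · right; left; exact ⟨mul_neg_of_pos_of_neg (mul_pos h (by linarith)) (by linarith), h2⟩

/-- the base point -/
noncomputable def b0 : Bs := ⟨(1, 1 / 2), one_ne_zero, by norm_num, by norm_num⟩

/-- loops around `0` and `1` -/
noncomputable def loop (s : ℝ) (hs : s = 1 ∨ s = -1) : Path b0 b0 where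
  toFun θ := ⟨(1, lp s θ), one_ne_zero, by
      intro h
      have h1 := congrArg Complex.re h
      have h2 := congrArg Complex.im h
      simp only [Complex.zero_re, Complex.zero_im] at h1 h2
      rcases lp_cases s θ with h | h | ⟨-, h | h⟩ <;> rcases hs with hs | hs <;> linarith [h.1], by
      intro h
      have h1 := congrArg Complex.re h
      have h2 := congrArg Complex.im h
      simp only [Complex.one_re, Complex.one_im] at h1 h2
      rcases lp_cases s θ with h | h | ⟨-, h | h⟩ <;> rcases hs with hs | hs <;> linarith [h.1]⟩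
  continuous_toFun := by
    have := lp_cont s
    fun_prop
  source' := by
    apply Subtype.ext; simp only [b0]; congr 1; apply Complex.ext <;> simp [lp]
  target' := by
    apply Subtype.ext; simp only [b0]; congr 1; apply Complex.ext <;> simp [lp]

theorem hol_loop (s : ℝ) (hs : s = 1 ∨ s = -1) :
    (coc a b c ha hb).hol (loop s hs) = (if s < 0 then a else b)⁻¹ := by
  have H : (coc a b c ha hb).Flat (loop s hs)
      (fun θ => if (θ : ℝ) ≤ 1 / 2 then 1 else (if s < 0 then a else b)⁻¹) := by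
    refine Cocycle.Flat.of_one_chart (loop s hs).continuous fun θ => ?_
    have hx : (1 : ℂ) ∈ XV false := Or.inr (by simp)
    by_cases hθ : (θ : ℝ) = 1 / 2
    · have hre : (lp s θ).re = 1 / 2 + s := by simp only [lp, hθ]; ring
      have him : (lp s θ).im = 0 := by simp only [lp, hθ]; ring
      have hc : Continuous fun z : I => lp s z := (lp_cont s).comp continuous_subtype_val
      refine ⟨(true, false), ⟨?_, hx⟩, ?_⟩
      · show (lp s θ).re < 0 ∨ 1 < (lp s θ).re
        rcases hs with hs | hs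
        · right; linarith
        · left; linarith
      · have ev : ∀ᶠ z : I in 𝓝 θ, (lp s z).re ≠ 1 / 2 ∧ ((lp s z).re < 1 / 2 ↔ s < 0) := by
          rcases hs with hs | hs
          · filter_upwards [hc.continuousAt.eventually (ev_re_gt (show 1 / 2 < (lp s θ).re by linarith))]
              with z e
            exact ⟨e.ne', by constructor <;> intro <;> linarith⟩
          · filter_upwards [hc.continuousAt.eventually (ev_re_lt (show (lp s θ).re < 1 / 2 by linarith))]
              with z e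
            exact ⟨e.ne, by constructor <;> intro <;> linarith⟩
        filter_upwards [ev] with z e
        show tT a b true (lp s z) * tX c false 1 * _ = tT a b true (lp s θ) * tX c false 1 * _
        simp only [tT, tX, him, le_refl, if_true, if_pos hθ.le, mul_one, e.2]
        rcases lp_cases s z with h | h | ⟨h1, h | h⟩
        · rw [if_pos h.1.le, if_pos h.2.le, mul_one]
        · rw [if_neg (not_le.2 h.1), if_neg (not_le.2 h.2), mul_inv_cancel]
        · exact absurd h.1 e.1
        · rw [if_pos h1.ge, if_pos h.2.le, mul_one]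
    · refine ⟨(false, false), ⟨?_, hx⟩, ?_⟩
      · show (lp s θ).im ≠ 0 ∨ (0 < (lp s θ).re ∧ (lp s θ).re < 1)
        rcases lp_cases s θ with h | h | ⟨h1, h | h⟩
        · exact Or.inl h.1.ne'
        · exact Or.inl h.1.ne
        · right; constructor <;> linarith [h.1]
        · exact absurd h.2 hθ
      · rcases lt_or_gt_of_ne hθ with h | h
        · filter_upwards [(isOpen_lt continuous_subtype_val continuous_const).mem_nhds h] with z e
          have e' : (z : ℝ) < 1 / 2 := e
          simp only [coc, tT, tX, if_pos h.le, if_pos e'.le]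
        · filter_upwards [(isOpen_lt continuous_const continuous_subtype_val).mem_nhds h] with z e
          have e' : 1 / 2 < (z : ℝ) := e
          simp only [coc, tT, tX, if_neg (not_le.2 h), if_neg (not_le.2 e')]
  rw [Cocycle.hol_eq H]
  norm_num

end

end Pool.Agent.H124Z.Orb
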